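import Pool.Agent.Helper27_MT.ExpN

/-!
# MT100, module TRG: pullback of a system by a polynomial parameter
-/

set_option autoImplicit false

namespace Pool.Agent.MT100.H27

open Matrix PowerSeries

noncomputable section

/-! ### G-type of matrices -/

theorem gtype_smul (c : ℚ) {f : PowerSeries ℚ} (hf : GType f) : GType (c • f) := by
  rw [PowerSeries.smul_eq_C_mul]
  exact Helper5_MT100.gmul (Helper5_MT100.gconst c) hf

theorem gtype_pow {f : PowerSeries ℚ} (hf : GType f) (n : ℕ) : GType (f ^ n) := by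
  have h1 := Helper5_MT100.gcl.2.2.2.2.2 ℕ (Finset.range n) (fun _ => f) fun _ _ => hf
  rwa [Finset.prod_const, Finset.card_range] at h1

theorem gtype_mmul {d : Type} [Fintype d] {A B : Matrix d d (PowerSeries ℚ)}
    (hA : ∀ i j, GType (A i j)) (hB : ∀ i j, GType (B i j)) : ∀ i j, GType ((A * B) i j) := by
  intro i j
  rw [Matrix.mul_apply]
  exact Helper5_MT100.gcl.2.2.2.2.1 _ _ _ fun k _ => Helper5_MT100.gmul (hA i k) (hB k j)

theorem gtype_eN {d : Type} [Fintype d] [DecidableEq d] (N : Matrix d d ℤ) {x : PowerSeries ℚ}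
    (hx : GType x) (i j : d) : GType (eN N x i j) := by
  unfold eN
  rw [Matrix.sum_apply]
  refine Helper5_MT100.gcl.2.2.2.2.1 _ _ _ fun k _ => ?_
  rw [Matrix.smul_apply, Matrix.map_apply, smul_eq_mul]
  refine Helper5_MT100.gmul (gtype_smul _ (gtype_pow hx k)) ?_
  have h : (((N ^ k) i j : ℤ) : PowerSeries ℚ) = C (((N ^ k) i j : ℤ) : ℚ) := (map_intCast _ _).symm
  rw [h]
  exact Helper5_MT100.gconst _

/-! ### The substitution is injective -/

theorem sv_ne_zero {V : PowerSeries ℚ} (hV : V ≠ 0) {f : PowerSeries ℚ} (hf : f ≠ 0) :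
    sv V f ≠ 0 := by
  rw [← X_pow_order_mul_divXPowOrder (f := f), map_mul, map_pow, sv_X]
  refine mul_ne_zero (pow_ne_zero _ (mul_ne_zero X_ne_zero hV)) ?_
  intro h
  have h1 := congrArg constantCoeff h
  rw [constantCoeff_sv, map_zero, constantCoeff_divXPowOrder_eq_zero_iff] at h1
  exact hf h1

/-! ### Homogenisation -/

theorem exists_hom {R : Polynomial ℚ} {V : PowerSeries ℚ} {d : ℕ}
    (hM : X * V * (R : PowerSeries ℚ) = X ^ d) (D : ℕ) (p : Polynomial ℚ)
    (hp : p.natDegree ≤ D) :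
    ∃ p' : Polynomial ℚ, (p' : PowerSeries ℚ) = (R : PowerSeries ℚ) ^ D * sv V p := by
  refine ⟨∑ j ∈ Finset.range (D + 1), Polynomial.C (p.coeff j) * Polynomial.X ^ (d * j) *
    R ^ (D - j), ?_⟩
  have h1 : (p : PowerSeries ℚ) = ∑ j ∈ Finset.range (D + 1), C (p.coeff j) * X ^ j := by
    conv_lhs => rw [p.as_sum_range_C_mul_X_pow' (Nat.lt_succ_of_le hp)]
    rw [← Polynomial.coeToPowerSeries.ringHom_apply, map_sum]
    refine Finset.sum_congr rfl fun j _ => ?_
    rw [Polynomial.coeToPowerSeries.ringHom_apply, Polynomial.coe_mul, Polynomial.coe_C,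
      Polynomial.coe_pow, Polynomial.coe_X]
  rw [h1, map_sum, Finset.mul_sum, ← Polynomial.coeToPowerSeries.ringHom_apply, map_sum]
  refine Finset.sum_congr rfl fun j hj => ?_
  have hj' : j ≤ D := Nat.lt_succ_iff.mp (Finset.mem_range.mp hj)
  rw [Polynomial.coeToPowerSeries.ringHom_apply, Polynomial.coe_mul, Polynomial.coe_mul,
    Polynomial.coe_C, Polynomial.coe_pow, Polynomial.coe_pow, Polynomial.coe_X, map_mul, sv_C,
    map_pow, sv_X, pow_mul, ← hM]
  have h2 : (R : PowerSeries ℚ) ^ D = (R : PowerSeries ℚ) ^ (D - j) * (R : PowerSeries ℚ) ^ j := by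
    rw [← pow_add, Nat.sub_add_cancel hj']
  rw [h2, mul_pow _ (R : PowerSeries ℚ)]
  ring

/-! ### The polynomial `rvp` -/

theorem rvp_zero (φ : Polynomial ℚ) (κ : ℕ) : (rvp φ κ).coeff 0 = φ.leadingCoeff := by
  unfold rvp
  rw [Polynomial.coeff_zero_eq_eval_zero, Polynomial.eval_finsetSum, Finset.sum_range_succ]
  have h1 : ∀ j ∈ Finset.range φ.natDegree, Polynomial.eval 0
      (Polynomial.C (φ.coeff j) * (1 - Polynomial.C (κ : ℚ) * Polynomial.X) ^ j *
        Polynomial.X ^ (φ.natDegree - j)) = 0 := by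
    intro j hj
    have hj' := Finset.mem_range.mp hj
    rw [Polynomial.eval_mul, Polynomial.eval_pow, Polynomial.eval_X, zero_pow (by omega), mul_zero]
  rw [Finset.sum_eq_zero h1, zero_add]
  simp

/-- TRG -/
theorem trg : TrgStmt := by
  intro d _ _ H K N q B hG φ hφ κ
  obtain ⟨hinv, hone, hnil, hq0, hode, hgH, hgK⟩ := hG
  obtain ⟨R, hR⟩ : ∃ R, R = rvp φ κ := ⟨_, rfl⟩
  have hR0 : R.coeff 0 ≠ 0 := by
    rw [hR, rvp_zero]
    intro h
    rw [Polynomial.leadingCoeff_eq_zero] at h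
    rw [h, Polynomial.natDegree_zero] at hφ
    exact lt_irrefl 0 hφ
  have hRc : PowerSeries.constantCoeff (R : PowerSeries ℚ) ≠ 0 := by
    rw [← coeff_zero_eq_constantCoeff_apply, Polynomial.coeff_coe]
    exact hR0
  obtain ⟨e, he⟩ : ∃ e, φ.natDegree = e + 1 := ⟨φ.natDegree - 1, by omega⟩
  obtain ⟨V, hV⟩ : ∃ V, V = X ^ e * (R : PowerSeries ℚ)⁻¹ := ⟨_, rfl⟩
  have hRi : (R : PowerSeries ℚ) * (R : PowerSeries ℚ)⁻¹ = 1 := PowerSeries.mul_inv_cancel _ hRc
  have hRne : (R : PowerSeries ℚ) ≠ 0 := by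
    intro h
    rw [h, map_zero] at hRc
    exact hRc rfl
  have hVne : V ≠ 0 := by
    rw [hV]
    refine mul_ne_zero (pow_ne_zero _ X_ne_zero) ?_
    intro h
    rw [h, mul_zero] at hRi
    exact zero_ne_one hRi
  have hmob : mobp φ κ = X * V := by
    unfold mobp
    rw [← hR, hV, he, pow_succ']
    ring
  have hM : X * V * (R : PowerSeries ℚ) = X ^ (e + 1) := by
    rw [hV, pow_succ']
    linear_combination (X * X ^ e) * hRi
  obtain ⟨a, b, ha, hb, hgeo⟩ := geo_inv R hR0
  have hgeoV : Geo a b V := by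
    rw [hV]
    exact geo_shift hb hgeo e
  have hsv : ∀ {f : PowerSeries ℚ}, GType f → GType (sv V f) := fun hf =>
    gtype_sv ha hb hgeoV hf
  -- the logarithm
  obtain ⟨l, hl⟩ : ∃ l, l = lgp φ κ := ⟨_, rfl⟩
  have hl' : l = PowerSeries.mk fun k => if k = 0 then 0 else
      coeff (k - 1) (-((Polynomial.derivative R : Polynomial ℚ) : PowerSeries ℚ) *
        (R : PowerSeries ℚ)⁻¹) / (k : ℚ) := by
    rw [hl, hR]
    rfl
  have hlg : GType l := by
    rw [hl']
    exact gtype_prim (Helper5_MT100.gmul (Helper5_MT100.gneg (Helper5_MT100.gpoly _))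
      (gtype_geo ha hb hgeo))
  have hdl : dv l * (R : PowerSeries ℚ) =
      -((Polynomial.derivative R : Polynomial ℚ) : PowerSeries ℚ) := by
    rw [hl', dv_prim]
    linear_combination (-((Polynomial.derivative R : Polynomial ℚ) : PowerSeries ℚ)) * hRi
  have hl0 : constantCoeff l = 0 := by
    rw [← coeff_zero_eq_constantCoeff_apply, hl', coeff_mk, if_pos rfl]
  -- the pullback
  have hT : TrG H N φ κ = H.map (sv V) * eN N l := by
    unfold TrG
    rw [← hl]
    congr 1
    refine Matrix.ext fun i j => ?_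
    rw [Matrix.map_apply, Matrix.map_apply, sv_apply, hmob]
  rw [hT]
  -- the degrees
  obtain ⟨D, hD⟩ : ∃ D, D = (zq q).natDegree + ∑ i, ∑ j, (zq (B i j)).natDegree := ⟨_, rfl⟩
  have hDq : (zq q).natDegree ≤ D := by omega
  have hDB : ∀ i j, (zq (B i j)).natDegree ≤ D := by
    intro i j
    have h1 : (zq (B i j)).natDegree ≤ ∑ j, (zq (B i j)).natDegree :=
      Finset.single_le_sum (f := fun j => (zq (B i j)).natDegree) (fun _ _ => Nat.zero_le _)
        (Finset.mem_univ j)
    have h2 : ∑ j, (zq (B i j)).natDegree ≤ ∑ i, ∑ j, (zq (B i j)).natDegree :=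
      Finset.single_le_sum (f := fun i => ∑ j, (zq (B i j)).natDegree) (fun _ _ => Nat.zero_le _)
        (Finset.mem_univ i)
    omega
  obtain ⟨q', hq'⟩ := exists_hom hM D (zq q) hDq
  have hB' : ∀ i j, ∃ p' : Polynomial ℚ, (p' : PowerSeries ℚ) =
      (R : PowerSeries ℚ) ^ D * sv V (zp (B i j)) := fun i j => exists_hom hM D _ (hDB i j)
  choose B' hB' using hB'
  obtain ⟨R', hR'⟩ : ∃ R', R' = Polynomial.derivative R := ⟨_, rfl⟩
  rw [← hR'] at hdl
  refine isG_of_rat (K := eN N (-l) * K.map (sv V)) (N := (φ.natDegree : ℤ) • N) (q := R * q')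
    (B := fun i j => (Polynomial.C ((e : ℚ) + 1) * R - Polynomial.X * R') * B' i j)
    ?_ ?_ ?_ ?_ ?_ ?_ ?_
  · have h1 : H.map (sv V) * K.map (sv V) = 1 := by
      have h2 : H.map (sv V) * K.map (sv V) = (H * K).map (sv V) :=
        (Matrix.map_mul (f := sv V)).symm
      rw [h2, hinv]
      exact Matrix.map_one _ (map_zero _) (map_one _)
    calc H.map (sv V) * eN N l * (eN N (-l) * K.map (sv V))
        = H.map (sv V) * (eN N l * eN N (-l)) * K.map (sv V) := by
          simp only [Matrix.mul_assoc]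
      _ = 1 := by rw [eN_mul_neg hnil, Matrix.mul_one, h1]
  · have h1 : ∀ i j, PowerSeries.constantCoeff ((H.map (sv V)) i j) =
        if i = j then 1 else 0 := by
      intro i j
      rw [Matrix.map_apply, constantCoeff_sv, hone]
    have h2 : ∀ i j, PowerSeries.constantCoeff (eN N l i j) = if i = j then 1 else 0 := by
      intro i j
      have h3 := congrFun (congrFun (map_eN (N := N) (PowerSeries.constantCoeff (R := ℚ)) l) i) j
      rw [hl0, eN_zero hnil, Matrix.map_apply, Matrix.one_apply] at h3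
      exact h3
    intro i j
    rw [Matrix.mul_apply, map_sum]
    simp only [map_mul, h1, h2]
    simp
  · obtain ⟨k, hk⟩ := hnil
    exact ⟨k, by rw [smul_pow, hk, smul_zero]⟩
  · intro h0
    have h1 : ((R * q' : Polynomial ℚ) : PowerSeries ℚ) = 0 := by
      rw [h0, Polynomial.coe_zero]
    rw [Polynomial.coe_mul, hq'] at h1
    have h2 : (zp q) ≠ 0 := by
      intro h
      unfold zp at h
      rw [Polynomial.coe_eq_zero_iff] at h
      unfold zq at h
      rw [Polynomial.map_eq_zero_iff (Int.castRingHom ℚ).injective_int] at h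
      exact hq0 h
    exact mul_ne_zero hRne (mul_ne_zero (pow_ne_zero _ hRne) (sv_ne_zero hVne h2)) h1
  · -- the differential equation
    obtain ⟨Hs, hHs⟩ : ∃ Hs, Hs = H.map (sv V) := ⟨_, rfl⟩
    obtain ⟨D1, hD1⟩ : ∃ D1, D1 = (H.map dv).map (sv V) := ⟨_, rfl⟩
    obtain ⟨Bs, hBs⟩ : ∃ Bs, Bs = (B.map zp).map (sv V) := ⟨_, rfl⟩
    obtain ⟨qs, hqs⟩ : ∃ qs, qs = sv V (zp q) := ⟨_, rfl⟩
    obtain ⟨NN, hNN⟩ : ∃ NN, NN = NR N (PowerSeries ℚ) := ⟨_, rfl⟩
    obtain ⟨E, hE⟩ : ∃ E, E = eN N l := ⟨_, rfl⟩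
    obtain ⟨Rs, hRs⟩ : ∃ Rs : PowerSeries ℚ, Rs = (R : PowerSeries ℚ) := ⟨_, rfl⟩
    obtain ⟨Rd, hRd⟩ : ∃ Rd : PowerSeries ℚ, Rd = (R' : PowerSeries ℚ) := ⟨_, rfl⟩
    obtain ⟨M', hM'⟩ : ∃ M' : PowerSeries ℚ, M' = dv (X * V) := ⟨_, rfl⟩
    have e1 : Hs.map dv = M' • D1 := by
      rw [hHs, hD1, hM']
      refine Matrix.ext fun i j => ?_
      rw [Matrix.map_apply, Matrix.map_apply, Matrix.smul_apply, Matrix.map_apply,
        Matrix.map_apply, dv_sv, smul_eq_mul, mul_comm]
    have hNs : (NR N (PowerSeries ℚ)).map (sv V) = NR N (PowerSeries ℚ) := by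
      refine Matrix.ext fun i j => ?_
      unfold NR
      rw [Matrix.map_apply, Matrix.map_apply, map_intCast]
    have e2 : (qs * (X * V)) • D1 = Bs * Hs - qs • (Hs * NN) := by
      have h := congrArg (fun M => M.map (sv V)) hode
      have hs : ∀ (c : PowerSeries ℚ) (M : Matrix d d (PowerSeries ℚ)),
          (c • M).map (sv V) = sv V c • M.map (sv V) := by
        intro c M
        refine Matrix.ext fun i j => ?_
        rw [Matrix.map_apply, Matrix.smul_apply, Matrix.smul_apply, Matrix.map_apply, smul_eq_mul,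
          smul_eq_mul, map_mul]
      simp only [hs, Matrix.map_sub _ (map_sub (sv V)), Matrix.map_mul] at h
      rw [map_mul, sv_X] at h
      rw [hHs, hD1, hBs, hqs, hNN]
      have hN : N.map (fun x => (x : PowerSeries ℚ)) = NR N (PowerSeries ℚ) := rfl
      rw [hN, hNs] at h
      exact h
    have hdM : X * M' * Rs = X * V * ((C ((e : ℚ) + 1)) * Rs - X * Rd) := by
      have h1 := congrArg dv hM
      have h2 : dv (X * V * (R : PowerSeries ℚ)) =
          X * V * dv (R : PowerSeries ℚ) + (R : PowerSeries ℚ) * dv (X * V) := by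
        have := (PowerSeries.derivative ℚ).leibniz (X * V) (R : PowerSeries ℚ)
        simpa only [smul_eq_mul] using this
      have h3 : dv (R : PowerSeries ℚ) = Rd := by
        rw [hRd, hR']
        exact PowerSeries.derivative_coe R
      have h4 : dv ((X : PowerSeries ℚ) ^ (e + 1)) = C ((e : ℚ) + 1) * X ^ e := by
        have h5 := (PowerSeries.derivative ℚ).leibniz_pow (X : PowerSeries ℚ) (e + 1)
        rw [Nat.add_sub_cancel, nsmul_eq_mul, smul_eq_mul, PowerSeries.derivative_X, mul_one] at h5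
        have h6 : ((e + 1 : ℕ) : PowerSeries ℚ) = C ((e : ℚ) + 1) := by
          rw [map_add, map_one, map_natCast, Nat.cast_add, Nat.cast_one]
        rw [h6] at h5
        exact h5
      rw [h2, h3, h4, ← hRs, ← hM'] at h1
      rw [← hRs] at hM
      have h7 : (X : PowerSeries ℚ) ^ (e + 1) = X * X ^ e := pow_succ' _ _
      rw [h7] at hM
      linear_combination X * h1 + (-C ((e : ℚ) + 1)) * hM
    have e3 : E.map dv = dv l • (E * NN) := by
      rw [hE, hNN]
      exact dv_eN hnil l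
    have e4 : E * NN = NN * E := by
      rw [hE, hNN]
      exact eN_comm l
    have hgoal : ((Rs * (Rs ^ D * qs)) * X) • (Hs * E).map dv =
        (((C ((e : ℚ) + 1)) * Rs - X * Rd) * Rs ^ D) • (Bs * (Hs * E)) -
        ((Rs * (Rs ^ D * qs)) * C ((e : ℚ) + 1)) • (Hs * E * NN) := by
      have hz : Hs * NN * E = Hs * E * NN := by
        rw [Matrix.mul_assoc, Matrix.mul_assoc, e4]
      have h1 : Bs * (Hs * E) = ((qs * (X * V)) • D1) * E + qs • (Hs * E * NN) := by
        rw [e2, Matrix.sub_mul, Matrix.smul_mul, hz, Matrix.mul_assoc, sub_add_cancel]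
      have h2 : (Hs * E).map dv = M' • (D1 * E) + dv l • (Hs * E * NN) := by
        rw [dv_mul, e1, e3, Matrix.smul_mul, Matrix.mul_smul, Matrix.mul_assoc Hs E NN]
      rw [h1, h2, Matrix.smul_mul, smul_add, smul_add, smul_smul, smul_smul, smul_smul, smul_smul]
      have h3 : Rs * (Rs ^ D * qs) * X * M' =
          ((C ((e : ℚ) + 1)) * Rs - X * Rd) * Rs ^ D * (qs * (X * V)) := by
        linear_combination (Rs ^ D * qs) * hdM
      have h4 : Rs * (Rs ^ D * qs) * X * dv l =
          ((C ((e : ℚ) + 1)) * Rs - X * Rd) * Rs ^ D * qs -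
            (Rs * (Rs ^ D * qs)) * C ((e : ℚ) + 1) := by
        rw [← hRs, ← hRd] at hdl
        linear_combination (Rs ^ D * qs * X) * hdl
      rw [h3, h4, sub_smul]
      abel
    have f1 : ((R * q' : Polynomial ℚ) : PowerSeries ℚ) = Rs * (Rs ^ D * qs) := by
      rw [Polynomial.coe_mul, hq', hRs, hqs]
      rfl
    have f2 : (Matrix.map (fun i j => (Polynomial.C ((e : ℚ) + 1) * R - Polynomial.X * R') *
        B' i j : Matrix d d (Polynomial ℚ)) (fun p => (p : PowerSeries ℚ))) =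
        (((C ((e : ℚ) + 1)) * Rs - X * Rd) * Rs ^ D) • Bs := by
      refine Matrix.ext fun i j => ?_
      rw [Matrix.map_apply, Matrix.smul_apply, smul_eq_mul, Polynomial.coe_mul, hB', hBs, hRs, hRd,
        Matrix.map_apply, Matrix.map_apply, Polynomial.coe_sub, Polynomial.coe_mul,
        Polynomial.coe_mul, Polynomial.coe_C, Polynomial.coe_X]
      ring
    have f3 : ((φ.natDegree : ℤ) • N).map (fun x => (x : PowerSeries ℚ)) =
        C ((e : ℚ) + 1) • NN := by
      refine Matrix.ext fun i j => ?_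
      rw [Matrix.map_apply, Matrix.smul_apply, Matrix.smul_apply, hNN, smul_eq_mul, smul_eq_mul]
      unfold NR
      rw [Matrix.map_apply, Int.cast_mul, he]
      congr 1
      rw [map_add, map_one, map_natCast]
      push_cast
      rfl
    rw [f1, f2, f3, ← hHs, ← hE, hgoal, Matrix.smul_mul, Matrix.mul_smul, smul_smul]
  · exact gtype_mmul (fun i j => by
      rw [Matrix.map_apply]
      exact hsv (hgH i j)) (gtype_eN N hlg)
  · exact gtype_mmul (gtype_eN N (Helper5_MT100.gneg hlg)) (fun i j => by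
      rw [Matrix.map_apply]
      exact hsv (hgK i j))

end

end Pool.Agent.MT100.H27
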