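import Pool.Agent.Helper27_MT.Tra
import Pool.Agent.Helper5_MT100.Gcl
import Pool.Agent.MT100.StmtsP

/-!
# MT100, module TRG, part 1: substitution of series with geometric denominators
-/

set_option autoImplicit false

namespace Pool.Agent.MT100.H27

open Matrix PowerSeries

noncomputable section

/-! ### The substitution of `X * V` -/

theorem hasSubst_XV (V : PowerSeries ℚ) : HasSubst (X * V) := by
  apply HasSubst.of_constantCoeff_zero'
  rw [map_mul, constantCoeff_X, zero_mul]

/-- the substitution `z ↦ z V(z)` -/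
def sv (V : PowerSeries ℚ) : PowerSeries ℚ →+* PowerSeries ℚ :=
  ((substAlgHom (hasSubst_XV V) : PowerSeries ℚ →ₐ[ℚ] PowerSeries ℚ) :
    PowerSeries ℚ →+* PowerSeries ℚ)

theorem sv_apply (V f : PowerSeries ℚ) : sv V f = f.subst (X * V) := by
  change substAlgHom (hasSubst_XV V) f = _
  rw [coe_substAlgHom]

theorem sv_X (V : PowerSeries ℚ) : sv V X = X * V := by
  rw [sv_apply, subst_X (hasSubst_XV V)]

theorem sv_C (V : PowerSeries ℚ) (c : ℚ) : sv V (C c) = C c := by
  have h : (C c : PowerSeries ℚ) = algebraMap ℚ (PowerSeries ℚ) c := rfl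
  rw [h]
  exact (substAlgHom (hasSubst_XV V)).commutes c

theorem dv_sv (V f : PowerSeries ℚ) : dv (sv V f) = sv V (dv f) * dv (X * V) := by
  rw [sv_apply, sv_apply]
  exact PowerSeries.derivative_subst (hasSubst_XV V)

theorem coeff_sv (V f : PowerSeries ℚ) (e : ℕ) : coeff e (sv V f) =
    ∑ d ∈ Finset.range (e + 1), coeff d f * coeff (e - d) (V ^ d) := by
  rw [sv_apply, coeff_subst' (hasSubst_XV V)]
  rw [finsum_eq_sum_of_support_subset (s := Finset.range (e + 1))]
  · refine Finset.sum_congr rfl fun d hd => ?_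
    rw [smul_eq_mul, mul_pow, PowerSeries.coeff_X_pow_mul', if_pos]
    have := Finset.mem_range.mp hd
    omega
  · intro d hd
    rw [Function.mem_support] at hd
    by_contra hcon
    apply hd
    rw [smul_eq_mul, mul_pow, PowerSeries.coeff_X_pow_mul', if_neg, mul_zero]
    intro h
    exact hcon (by rw [Finset.coe_range]; exact Nat.lt_succ_of_le h)

theorem constantCoeff_sv (V f : PowerSeries ℚ) : constantCoeff (sv V f) = constantCoeff f := by
  rw [← coeff_zero_eq_constantCoeff_apply, ← coeff_zero_eq_constantCoeff_apply, coeff_sv]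
  simp

/-! ### Geometric denominators -/

/-- geometric denominators and sizes -/
def Geo (a b : ℕ) (V : PowerSeries ℚ) : Prop :=
  ∀ n, (∃ z : ℤ, (a : ℚ) ^ (n + 1) * coeff n V = z) ∧ |coeff n V| ≤ (b : ℚ) ^ (n + 1)

theorem geo_pow {a b : ℕ} (hb : 0 < b) {V : PowerSeries ℚ} (hV : Geo a b V) (d n : ℕ) :
    (∃ z : ℤ, (a : ℚ) ^ (n + d) * coeff n (V ^ d) = z) ∧
      |coeff n (V ^ d)| ≤ (2 * b : ℚ) ^ (n + d) := by
  have hb0 : (0 : ℚ) < b := by exact_mod_cast hb
  induction d generalizing n with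
  | zero =>
    rw [pow_zero, coeff_one]
    by_cases h : n = 0
    · rw [if_pos h, h]
      refine ⟨⟨1, by simp⟩, by simp⟩
    · rw [if_neg h]
      refine ⟨⟨0, by simp⟩, ?_⟩
      rw [abs_zero]
      positivity
  | succ d ih =>
    rw [pow_succ, PowerSeries.coeff_mul]
    constructor
    · have h1 : ∀ x ∈ Finset.HasAntidiagonal.antidiagonal n, ∃ z : ℤ,
          (a : ℚ) ^ (n + (d + 1)) * (coeff x.1 (V ^ d) * coeff x.2 V) = z := by
        intro x hx
        have hx' : x.1 + x.2 = n := Finset.HasAntidiagonal.mem_antidiagonal.mp hx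
        obtain ⟨z1, hz1⟩ := (ih x.1).1
        obtain ⟨z2, hz2⟩ := (hV x.2).1
        refine ⟨z1 * z2, ?_⟩
        rw [Int.cast_mul, ← hz1, ← hz2]
        have h2 : n + (d + 1) = (x.1 + d) + (x.2 + 1) := by omega
        rw [h2, pow_add]
        ring
      choose! g hg using h1
      refine ⟨∑ x ∈ Finset.HasAntidiagonal.antidiagonal n, g x, ?_⟩
      rw [Finset.mul_sum, Int.cast_sum]
      exact Finset.sum_congr rfl fun x hx => hg x hx
    · refine (Finset.abs_sum_le_sum_abs _ _).trans ?_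
      have h1 : ∀ x ∈ Finset.HasAntidiagonal.antidiagonal n,
          |coeff x.1 (V ^ d) * coeff x.2 V| ≤ (b : ℚ) ^ (n + (d + 1)) * 2 ^ d * 2 ^ x.1 := by
        intro x hx
        have hx' : x.1 + x.2 = n := Finset.HasAntidiagonal.mem_antidiagonal.mp hx
        rw [abs_mul]
        calc |coeff x.1 (V ^ d)| * |coeff x.2 V|
            ≤ (2 * b : ℚ) ^ (x.1 + d) * (b : ℚ) ^ (x.2 + 1) :=
              mul_le_mul (ih x.1).2 (hV x.2).2 (abs_nonneg _) (by positivity)
          _ = (b : ℚ) ^ ((x.1 + d) + (x.2 + 1)) * 2 ^ d * 2 ^ x.1 := by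
              rw [mul_pow, pow_add (b : ℚ) (x.1 + d), pow_add (2 : ℚ)]
              ring
          _ = (b : ℚ) ^ (n + (d + 1)) * 2 ^ d * 2 ^ x.1 := by
              have h2 : (x.1 + d) + (x.2 + 1) = n + (d + 1) := by omega
              rw [h2]
      refine (Finset.sum_le_sum h1).trans ?_
      rw [← Finset.mul_sum, Finset.Nat.sum_antidiagonal_eq_sum_range_succ_mk]
      have h3 : (∑ k ∈ Finset.range (n + 1), (2 : ℚ) ^ k) ≤ 2 ^ (n + 1) := by
        rw [geom_sum_eq (by norm_num) (n + 1)]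
        have : (0 : ℚ) < 2 ^ (n + 1) := by positivity
        norm_num
      calc (b : ℚ) ^ (n + (d + 1)) * 2 ^ d * ∑ k ∈ Finset.range (n + 1), (2 : ℚ) ^ k
          ≤ (b : ℚ) ^ (n + (d + 1)) * 2 ^ d * 2 ^ (n + 1) :=
            mul_le_mul_of_nonneg_left h3 (by positivity)
        _ = (2 * b : ℚ) ^ (n + (d + 1)) := by
            rw [mul_pow]
            ring

/-- substitution keeps G-type -/
theorem gtype_sv {a b : ℕ} (ha : 0 < a) (hb : 0 < b) {V : PowerSeries ℚ} (hV : Geo a b V)
    {f : PowerSeries ℚ} (hf : GType f) : GType (sv V f) := by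
  obtain ⟨A, hA, hf⟩ := hf
  have hA1 : (1 : ℚ) ≤ A := by exact_mod_cast hA
  have hb1 : (1 : ℚ) ≤ b := by exact_mod_cast hb
  have ha1 : (1 : ℚ) ≤ a := by exact_mod_cast ha
  refine ⟨4 * A * a * b, by positivity, fun k => ⟨?_, ?_⟩⟩
  · rw [coeff_sv]
    have h1 : ∀ d ∈ Finset.range (k + 1), |coeff d f * coeff (k - d) (V ^ d)| ≤
        (A : ℚ) ^ (k + 1) * (2 * b : ℚ) ^ (k + 1) := by
      intro d hd
      have hd' : d ≤ k := Nat.lt_succ_iff.mp (Finset.mem_range.mp hd)
      rw [abs_mul]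
      have h2 : |coeff d f| ≤ (A : ℚ) ^ (k + 1) :=
        (hf d).1.trans (pow_le_pow_right₀ hA1 (by omega))
      have h3 : |coeff (k - d) (V ^ d)| ≤ (2 * b : ℚ) ^ (k + 1) :=
        (geo_pow hb hV d (k - d)).2.trans (pow_le_pow_right₀ (by linarith) (by omega))
      exact mul_le_mul h2 h3 (abs_nonneg _) (by positivity)
    refine (Finset.abs_sum_le_sum_abs _ _).trans ((Finset.sum_le_sum h1).trans ?_)
    rw [Finset.sum_const, Finset.card_range, nsmul_eq_mul]
    have h5 : ((k + 1 : ℕ) : ℚ) ≤ 2 ^ (k + 1) := by exact_mod_cast (Nat.lt_two_pow_self).le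
    calc ((k + 1 : ℕ) : ℚ) * ((A : ℚ) ^ (k + 1) * (2 * b : ℚ) ^ (k + 1))
        ≤ 2 ^ (k + 1) * ((A : ℚ) ^ (k + 1) * (2 * b : ℚ) ^ (k + 1)) :=
          mul_le_mul_of_nonneg_right h5 (by positivity)
      _ = (4 * A * b : ℚ) ^ (k + 1) := by
          rw [← mul_pow, ← mul_pow]
          congr 1
          ring
      _ ≤ ((4 * A * a * b : ℕ) : ℚ) ^ (k + 1) := by
          apply pow_le_pow_left₀ (by positivity)
          push_cast
          have : (4 * A * b : ℚ) * 1 ≤ (4 * A * b) * a :=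
            mul_le_mul_of_nonneg_left ha1 (by positivity)
          linarith
  · obtain ⟨Dn, hD1, hD2, hD3⟩ := (hf k).2
    refine ⟨Dn * a ^ (k + 1), by positivity, ?_, ?_⟩
    · calc Dn * a ^ (k + 1) ≤ A ^ (k + 1) * a ^ (k + 1) := Nat.mul_le_mul_right _ hD2
        _ = (A * a) ^ (k + 1) := (mul_pow _ _ _).symm
        _ ≤ (4 * A * a * b) ^ (k + 1) := by
          apply Nat.pow_le_pow_left
          calc A * a = 1 * (A * a) * 1 := by ring
            _ ≤ 4 * (A * a) * b := Nat.mul_le_mul (Nat.mul_le_mul_right _ (by norm_num)) hb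
            _ = 4 * A * a * b := by ring
    · intro i hi
      have h1 : ∀ d ∈ Finset.range (i + 1), ∃ z : ℤ,
          ((Dn * a ^ (k + 1) : ℕ) : ℚ) * (coeff d f * coeff (i - d) (V ^ d)) = z := by
        intro d hd
        have hd1 : d ≤ i := Nat.lt_succ_iff.mp (Finset.mem_range.mp hd)
        obtain ⟨z, hz⟩ := hD3 d (by omega)
        obtain ⟨y, hy⟩ := (geo_pow hb hV d (i - d)).1
        refine ⟨z * y * a ^ (k + 1 - i), ?_⟩
        push_cast
        rw [← hz, ← hy]
        have h2 : (a : ℚ) ^ (k + 1) = a ^ (i - d + d) * a ^ (k + 1 - i) := by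
          rw [← pow_add]
          congr 1
          omega
        rw [h2]
        ring
      choose! g hg using h1
      refine ⟨∑ d ∈ Finset.range (i + 1), g d, ?_⟩
      rw [coeff_sv, Finset.mul_sum, Int.cast_sum]
      exact Finset.sum_congr rfl fun d hd => hg d hd

theorem gtype_geo {a b : ℕ} (ha : 0 < a) (hb : 0 < b) {V : PowerSeries ℚ} (hV : Geo a b V) :
    GType V := by
  have hb1 : (1 : ℚ) ≤ b := by exact_mod_cast hb
  have ha1 : (1 : ℚ) ≤ a := by exact_mod_cast ha
  refine ⟨a * b, by positivity, fun k => ⟨?_, a ^ (k + 1), by positivity, ?_, ?_⟩⟩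
  · refine (hV k).2.trans (pow_le_pow_left₀ (by positivity) ?_ _)
    push_cast
    nlinarith
  · exact Nat.pow_le_pow_left (Nat.le_mul_of_pos_right _ hb) _
  · intro i hi
    obtain ⟨z, hz⟩ := (hV i).1
    refine ⟨z * a ^ (k - i), ?_⟩
    push_cast
    rw [← hz]
    have h2 : (a : ℚ) ^ (k + 1) = a ^ (i + 1) * a ^ (k - i) := by
      rw [← pow_add]
      congr 1
      omega
    rw [h2]
    ring

/-- the inverse of a polynomial -/
theorem geo_inv (p : Polynomial ℚ) (h0 : p.coeff 0 ≠ 0) : ∃ a b : ℕ, 0 < a ∧ 0 < b ∧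
    Geo a b ((p : PowerSeries ℚ)⁻¹) := by
  obtain ⟨W, hW⟩ : ∃ W, W = (p : PowerSeries ℚ)⁻¹ := ⟨_, rfl⟩
  have hpW : (p : PowerSeries ℚ) * W = 1 := by
    rw [hW]
    refine PowerSeries.mul_inv_cancel _ ?_
    rw [← coeff_zero_eq_constantCoeff_apply, Polynomial.coeff_coe]
    exact h0
  rw [← hW]
  obtain ⟨c, hc, hz⟩ := denom (fun o : Option Unit => o.elim
    (Polynomial.C (p.coeff 0)⁻¹ * p) fun _ => Polynomial.C (p.coeff 0)⁻¹)
  obtain ⟨y, hy⟩ := hz none
  obtain ⟨x, hx⟩ := hz (some ())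
  have hr : ∀ i, ∃ z : ℤ, (c : ℚ) * ((p.coeff 0)⁻¹ * p.coeff i) = z := by
    intro i
    refine ⟨y.coeff i, ?_⟩
    have h1 := congrArg (fun u => Polynomial.coeff u i) hy
    simp only [zq, Option.elim_none, Polynomial.coeff_map, Polynomial.coeff_C_mul] at h1
    exact h1.symm
  have hr0 : ∃ z : ℤ, (c : ℚ) * (p.coeff 0)⁻¹ = z := by
    refine ⟨x.coeff 0, ?_⟩
    have h1 := congrArg (fun u => Polynomial.coeff u 0) hx
    simp only [zq, Option.elim_some, Polynomial.coeff_map, Polynomial.coeff_C_mul,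
      Polynomial.coeff_C_zero] at h1
    exact h1.symm
  obtain ⟨S, hS⟩ : ∃ S : ℚ, S = ∑ i ∈ Finset.range (p.natDegree + 1),
    |(p.coeff 0)⁻¹ * p.coeff i| := ⟨_, rfl⟩
  have hS1 : ∀ n, ∑ i ∈ Finset.range n, |(p.coeff 0)⁻¹ * p.coeff i| ≤ S := by
    intro n
    have h1 : ∑ i ∈ Finset.range n, |(p.coeff 0)⁻¹ * p.coeff i| ≤
        ∑ i ∈ Finset.range (max n (p.natDegree + 1)), |(p.coeff 0)⁻¹ * p.coeff i| :=
      Finset.sum_le_sum_of_subset_of_nonneg (Finset.range_mono (le_max_left _ _))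
        fun _ _ _ => abs_nonneg _
    refine h1.trans (le_of_eq ?_)
    rw [hS]
    symm
    refine Finset.sum_subset (Finset.range_mono (le_max_right _ _)) fun i _ hi => ?_
    have h2 : p.natDegree < i := by
      by_contra hcon
      exact hi (Finset.mem_range.mpr (by omega))
    rw [Polynomial.coeff_eq_zero_of_natDegree_lt h2, mul_zero, abs_zero]
  obtain ⟨b, hb⟩ := exists_nat_ge (max 1 (max |(p.coeff 0)⁻¹| S))
  have hb1 : (1 : ℚ) ≤ b := (le_max_left _ _).trans hb
  have hb2 : |(p.coeff 0)⁻¹| ≤ b := ((le_max_left _ _).trans (le_max_right _ _)).trans hb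
  have hb3 : S ≤ b := ((le_max_right _ _).trans (le_max_right _ _)).trans hb
  have hbpos : 0 < b := by
    have : (0 : ℚ) < b := by linarith
    exact_mod_cast this
  -- the recursion
  have hW0 : coeff 0 W = (p.coeff 0)⁻¹ := by
    have h1 := congrArg (coeff 0) hpW
    rw [PowerSeries.coeff_mul, Finset.Nat.antidiagonal_zero, Finset.sum_singleton,
      Polynomial.coeff_coe, coeff_zero_one] at h1
    exact eq_inv_of_mul_eq_one_right h1
  have hWs : ∀ n, coeff (n + 1) W = -∑ i ∈ Finset.range (n + 1),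
      ((p.coeff 0)⁻¹ * p.coeff (i + 1)) * coeff (n - i) W := by
    intro n
    have h1 := congrArg (coeff (n + 1)) hpW
    rw [PowerSeries.coeff_mul, Finset.Nat.sum_antidiagonal_eq_sum_range_succ_mk,
      Finset.sum_range_succ', coeff_one, if_neg (Nat.succ_ne_zero n)] at h1
    simp only [Polynomial.coeff_coe, Nat.sub_zero] at h1
    have h2 : ∀ i ∈ Finset.range (n + 1), p.coeff (i + 1) * coeff (n + 1 - (i + 1)) W =
        p.coeff (i + 1) * coeff (n - i) W := by
      intro i _
      have : n + 1 - (i + 1) = n - i := by omega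
      rw [this]
    rw [Finset.sum_congr rfl h2] at h1
    have h3 : ∀ i ∈ Finset.range (n + 1), ((p.coeff 0)⁻¹ * p.coeff (i + 1)) * coeff (n - i) W =
        (p.coeff 0)⁻¹ * (p.coeff (i + 1) * coeff (n - i) W) := by
      intro i _
      ring
    rw [Finset.sum_congr rfl h3, ← Finset.mul_sum]
    field_simp
    linear_combination h1
  refine ⟨c.natAbs, b, Int.natAbs_pos.mpr hc, hbpos, fun n => ⟨?_, ?_⟩⟩
  · -- denominators: first with `c`
    have key : ∀ n, ∃ z : ℤ, (c : ℚ) ^ (n + 1) * coeff n W = z := by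
      intro n
      induction n using Nat.strong_induction_on with
      | _ n ih =>
        rcases n with _ | n
        · rw [hW0, zero_add, pow_one]
          exact hr0
        · have h1 : ∀ i ∈ Finset.range (n + 1), ∃ z : ℤ, (c : ℚ) ^ (n + 2) *
              (((p.coeff 0)⁻¹ * p.coeff (i + 1)) * coeff (n - i) W) = z := by
            intro i hi
            have hi' : i ≤ n := Nat.lt_succ_iff.mp (Finset.mem_range.mp hi)
            obtain ⟨z1, hz1⟩ := hr (i + 1)
            obtain ⟨z2, hz2⟩ := ih (n - i) (by omega)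
            refine ⟨z1 * z2 * c ^ i, ?_⟩
            push_cast
            rw [← hz1, ← hz2]
            have h2 : (c : ℚ) ^ (n + 2) = c * c ^ (n - i + 1) * c ^ i := by
              rw [← pow_succ', ← pow_add]
              congr 1
              omega
            rw [h2]
            ring
          choose! g hg using h1
          refine ⟨-∑ i ∈ Finset.range (n + 1), g i, ?_⟩
          rw [hWs, mul_neg, Finset.mul_sum, Int.cast_neg, Int.cast_sum]
          congr 1
          exact Finset.sum_congr rfl fun i hi => hg i hi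
    obtain ⟨z, hz⟩ := key n
    rcases Int.natAbs_eq c with h | h
    · refine ⟨z, ?_⟩
      rw [← hz]
      congr 2
      rw [← Int.cast_natCast c.natAbs, ← h]
    · refine ⟨(-1) ^ (n + 1) * z, ?_⟩
      have h2 : ((c.natAbs : ℕ) : ℚ) = -(c : ℚ) := by
        have h3 : (c.natAbs : ℤ) = -c := by omega
        rw [← Int.cast_natCast c.natAbs, h3, Int.cast_neg]
      rw [h2, neg_pow]
      push_cast
      rw [← hz]
      ring
  · induction n using Nat.strong_induction_on with
    | _ n ih =>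
      rcases n with _ | n
      · rw [hW0, zero_add, pow_one]
        exact hb2
      · rw [hWs, abs_neg]
        refine (Finset.abs_sum_le_sum_abs _ _).trans ?_
        have h1 : ∀ i ∈ Finset.range (n + 1),
            |((p.coeff 0)⁻¹ * p.coeff (i + 1)) * coeff (n - i) W| ≤
              |(p.coeff 0)⁻¹ * p.coeff (i + 1)| * (b : ℚ) ^ (n + 1) := by
          intro i hi
          rw [abs_mul]
          refine mul_le_mul_of_nonneg_left ?_ (abs_nonneg _)
          exact (ih (n - i) (by omega)).trans (pow_le_pow_right₀ hb1 (by omega))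
        refine (Finset.sum_le_sum h1).trans ?_
        rw [← Finset.sum_mul, pow_succ (b : ℚ) (n + 1), mul_comm]
        refine mul_le_mul_of_nonneg_left ?_ (by positivity)
        have h2 := hS1 (n + 2)
        rw [Finset.sum_range_succ'] at h2
        have h3 : 0 ≤ |(p.coeff 0)⁻¹ * p.coeff 0| := abs_nonneg _
        linarith

theorem geo_shift {a b : ℕ} (hb : 0 < b) {V : PowerSeries ℚ} (hV : Geo a b V)
    (m : ℕ) : Geo a b (X ^ m * V) := by
  have hb1 : (1 : ℚ) ≤ b := by exact_mod_cast hb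
  intro n
  rw [PowerSeries.coeff_X_pow_mul']
  by_cases h : m ≤ n
  · rw [if_pos h]
    constructor
    · obtain ⟨z, hz⟩ := (hV (n - m)).1
      refine ⟨z * a ^ m, ?_⟩
      push_cast
      rw [← hz]
      have h2 : (a : ℚ) ^ (n + 1) = a ^ (n - m + 1) * a ^ m := by
        rw [← pow_add]
        congr 1
        omega
      rw [h2]
      ring
    · exact (hV (n - m)).2.trans (pow_le_pow_right₀ hb1 (by omega))
  · rw [if_neg h]
    refine ⟨⟨0, by simp⟩, ?_⟩
    rw [abs_zero]
    positivity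

/-! ### Primitives -/

/-- the primitive of a power series of G-type -/
theorem gtype_prim {f : PowerSeries ℚ} (hf : GType f) :
    GType (PowerSeries.mk fun k => if k = 0 then 0 else coeff (k - 1) f / (k : ℚ)) := by
  obtain ⟨B, hB, hf⟩ := hf
  obtain ⟨A, hA⟩ : ∃ A : ℕ, Real.exp (Real.log 4 + 4) ≤ A := exists_nat_ge _
  have hA1 : 1 ≤ A := by
    have h1 : (1 : ℝ) ≤ Real.exp (Real.log 4 + 4) := by
      rw [Real.one_le_exp_iff]
      have := Real.log_nonneg (show (1 : ℝ) ≤ 4 by norm_num)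
      linarith
    exact_mod_cast h1.trans hA
  have hB1 : (1 : ℚ) ≤ B := by exact_mod_cast hB
  have hA2 : (1 : ℚ) ≤ A := by exact_mod_cast hA1
  refine ⟨A * B, by positivity, fun k => ⟨?_, ?_⟩⟩
  · rw [coeff_mk]
    by_cases hk : k = 0
    · rw [if_pos hk, abs_zero]
      positivity
    · rw [if_neg hk, abs_div, Nat.abs_cast]
      have hk1 : (1 : ℚ) ≤ k := by exact_mod_cast Nat.one_le_iff_ne_zero.mpr hk
      calc |coeff (k - 1) f| / (k : ℚ) ≤ |coeff (k - 1) f| := div_le_self (abs_nonneg _) hk1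
        _ ≤ (B : ℚ) ^ (k - 1 + 1) := (hf (k - 1)).1
        _ ≤ (B : ℚ) ^ (k + 1) := pow_le_pow_right₀ hB1 (by omega)
        _ ≤ ((A * B : ℕ) : ℚ) ^ (k + 1) := by
            apply pow_le_pow_left₀ (by positivity)
            push_cast
            nlinarith
  · obtain ⟨Dn, hD1, hD2, hD3⟩ := (hf k).2
    refine ⟨Nat.lcmUpto k * Dn, Nat.mul_pos (Nat.lcmUpto_pos k) hD1, ?_, ?_⟩
    · have h1 : (Nat.lcmUpto k : ℝ) ≤ (A : ℝ) ^ k := by
        have h2 : Real.log (Nat.lcmUpto k) ≤ (Real.log 4 + 4) * k := by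
          rw [← Chebyshev.psi_eq_log_lcmUpto]
          exact Chebyshev.psi_le_const_mul_self (Nat.cast_nonneg k)
        have h3 : (0 : ℝ) < Nat.lcmUpto k := by exact_mod_cast Nat.lcmUpto_pos k
        calc (Nat.lcmUpto k : ℝ) = Real.exp (Real.log (Nat.lcmUpto k)) :=
              (Real.exp_log h3).symm
          _ ≤ Real.exp ((Real.log 4 + 4) * k) := Real.exp_le_exp.mpr h2
          _ = Real.exp (Real.log 4 + 4) ^ k := by rw [mul_comm, Real.exp_nat_mul]
          _ ≤ (A : ℝ) ^ k := pow_le_pow_left₀ (Real.exp_pos _).le hA _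
      have h4 : Nat.lcmUpto k ≤ A ^ k := by exact_mod_cast h1
      calc Nat.lcmUpto k * Dn ≤ A ^ (k + 1) * B ^ (k + 1) :=
            Nat.mul_le_mul (h4.trans (Nat.pow_le_pow_right hA1 (by omega))) hD2
        _ = (A * B) ^ (k + 1) := (mul_pow _ _ _).symm
    · intro i hi
      rw [coeff_mk]
      by_cases h0 : i = 0
      · refine ⟨0, ?_⟩
        rw [if_pos h0, mul_zero, Int.cast_zero]
      · rw [if_neg h0]
        have hdvd : i ∣ Nat.lcmUpto k :=
          Finset.dvd_lcm (f := id) (Finset.mem_Icc.mpr ⟨Nat.one_le_iff_ne_zero.mpr h0, hi⟩)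
        obtain ⟨c, hc⟩ := hdvd
        obtain ⟨z, hz⟩ := hD3 (i - 1) (by omega)
        refine ⟨c * z, ?_⟩
        rw [hc]
        have hi0 : (i : ℚ) ≠ 0 := by exact_mod_cast h0
        push_cast
        rw [← hz]
        field_simp

theorem dv_prim (f : PowerSeries ℚ) :
    dv (PowerSeries.mk fun k => if k = 0 then 0 else coeff (k - 1) f / (k : ℚ)) = f := by
  ext n
  have h : coeff n (dv (PowerSeries.mk fun k => if k = 0 then 0 else
      coeff (k - 1) f / (k : ℚ))) = coeff (n + 1) (PowerSeries.mk fun k => if k = 0 then 0 else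
      coeff (k - 1) f / (k : ℚ)) * (n + 1) := PowerSeries.coeff_derivative _ _
  rw [h, coeff_mk, if_neg (Nat.succ_ne_zero n), Nat.add_sub_cancel]
  push_cast
  have h0 : ((n : ℚ) + 1) ≠ 0 := by positivity
  field_simp

end

end Pool.Agent.MT100.H27
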