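import Pool.Agent.Helper27_MT.Geo

/-!
# MT100, module TRG, part 2: exponentials of nilpotent matrices
-/

set_option autoImplicit false

namespace Pool.Agent.MT100.H27

open Matrix PowerSeries

noncomputable section

variable {d : Type*} [Fintype d] [DecidableEq d]

/-- an integral matrix over a ring -/
def NR (N : Matrix d d ℤ) (R : Type*) [CommRing R] : Matrix d d R := N.map (fun y : ℤ => (y : R))

theorem pow_card (N : Matrix d d ℤ) (h : IsNilpotent N) : N ^ Fintype.card d = 0 := by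
  have h1 : N.charpoly - Polynomial.X ^ Fintype.card d = 0 :=
    (Matrix.isNilpotent_charpoly_sub_pow_of_isNilpotent h).eq_zero
  have h2 := Matrix.aeval_self_charpoly N
  rw [sub_eq_zero.mp h1, map_pow, Polynomial.aeval_X] at h2
  exact h2

theorem NR_pow (N : Matrix d d ℤ) (R : Type*) [CommRing R] (j : ℕ) :
    NR N R ^ j = (N ^ j).map (fun y : ℤ => (y : R)) := by
  have h : ∀ M : Matrix d d ℤ, M.map (fun y : ℤ => (y : R)) = (Int.castRingHom R).mapMatrix M :=
    fun M => rfl
  rw [h, map_pow]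
  rfl

variable {R : Type*} [CommRing R] [Algebra ℚ R]

theorem smul_pow_card {N : Matrix d d ℤ} (h : IsNilpotent N) (x : R) :
    (x • NR N R) ^ Fintype.card d = 0 := by
  rw [smul_pow, NR_pow, pow_card N h]
  refine Matrix.ext fun i j => ?_
  rw [Matrix.smul_apply, Matrix.map_apply, Matrix.zero_apply, Int.cast_zero, smul_zero,
    Matrix.zero_apply]

theorem eN_eq {N : Matrix d d ℤ} (h : IsNilpotent N) (x : R) :
    eN N x = IsNilpotent.exp (x • NR N R) := by
  rw [IsNilpotent.exp_eq_sum (smul_pow_card h x)]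
  unfold eN
  refine Finset.sum_congr rfl fun j _ => ?_
  rw [smul_pow, NR_pow, smul_assoc]

theorem eN_mul {N : Matrix d d ℤ} (h : IsNilpotent N) (x y : R) :
    eN N x * eN N y = eN N (x + y) := by
  have hx : IsNilpotent (x • NR N R) := ⟨_, smul_pow_card h x⟩
  have hy : IsNilpotent (y • NR N R) := ⟨_, smul_pow_card h y⟩
  have hc : Commute (x • NR N R) (y • NR N R) :=
    ((Commute.refl (NR N R)).smul_left x).smul_right y
  rw [eN_eq h, eN_eq h, eN_eq h, add_smul, IsNilpotent.exp_add_of_commute hc hx hy]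

theorem eN_zero {N : Matrix d d ℤ} (h : IsNilpotent N) : eN N (0 : R) = 1 := by
  rw [eN_eq h, zero_smul, IsNilpotent.exp_zero]

theorem eN_mul_neg {N : Matrix d d ℤ} (h : IsNilpotent N) (x : R) :
    eN N x * eN N (-x) = 1 := by
  rw [eN_mul h, add_neg_cancel, eN_zero h]

theorem eN_comm {N : Matrix d d ℤ} (x : R) : eN N x * NR N R = NR N R * eN N x := by
  unfold eN
  rw [Finset.sum_mul, Finset.mul_sum]
  refine Finset.sum_congr rfl fun j _ => ?_
  rw [← NR_pow, Matrix.smul_mul, Matrix.mul_smul, ← pow_succ, ← pow_succ']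

theorem dv_eN {N : Matrix d d ℤ} (h : IsNilpotent N) (x : PowerSeries ℚ) :
    (eN N x).map dv = dv x • (eN N x * NR N (PowerSeries ℚ)) := by
  obtain ⟨n, hn⟩ : ∃ n, n = Fintype.card d := ⟨_, rfl⟩
  have hNn : NR N (PowerSeries ℚ) ^ n = 0 := by
    rw [NR_pow, hn, pow_card N h]
    exact Matrix.map_zero _ Int.cast_zero
  have h1 : (eN N x).map dv = ∑ j ∈ Finset.range n,
      (((j.factorial : ℚ)⁻¹) • (((j : ℕ) : PowerSeries ℚ) * (x ^ (j - 1) * dv x))) •
        NR N (PowerSeries ℚ) ^ j := by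
    refine Matrix.ext fun a b => ?_
    unfold eN
    rw [Matrix.map_apply, Matrix.sum_apply, Matrix.sum_apply, ← hn]
    have h2 : dv (∑ c ∈ Finset.range n, ((((c.factorial : ℚ)⁻¹) • x ^ c) •
        (N ^ c).map (fun y : ℤ => (y : PowerSeries ℚ))) a b) = ∑ c ∈ Finset.range n,
        dv (((((c.factorial : ℚ)⁻¹) • x ^ c) •
          (N ^ c).map (fun y : ℤ => (y : PowerSeries ℚ))) a b) :=
      map_sum (PowerSeries.derivative ℚ) _ _
    rw [h2]
    refine Finset.sum_congr rfl fun c _ => ?_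
    rw [Matrix.smul_apply, Matrix.smul_apply, NR_pow, Matrix.map_apply, smul_eq_mul, smul_eq_mul]
    have h3 : dv ((((c.factorial : ℚ)⁻¹) • x ^ c) * (((N ^ c) a b : ℤ) : PowerSeries ℚ)) =
        ((((c.factorial : ℚ)⁻¹) • x ^ c)) * dv (((N ^ c) a b : ℤ) : PowerSeries ℚ) +
          (((N ^ c) a b : ℤ) : PowerSeries ℚ) * dv ((((c.factorial : ℚ)⁻¹) • x ^ c)) := by
      have := (PowerSeries.derivative ℚ).leibniz ((((c.factorial : ℚ)⁻¹) • x ^ c))
        (((N ^ c) a b : ℤ) : PowerSeries ℚ)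
      simpa [smul_eq_mul] using this
    have h4 : dv (((N ^ c) a b : ℤ) : PowerSeries ℚ) = 0 :=
      (PowerSeries.derivative ℚ).map_intCast _
    have h5 : dv ((((c.factorial : ℚ)⁻¹) • x ^ c)) = ((c.factorial : ℚ)⁻¹) • dv (x ^ c) :=
      (PowerSeries.derivative ℚ).map_smul _ _
    have h6 : dv (x ^ c) = ((c : ℕ) : PowerSeries ℚ) * (x ^ (c - 1) * dv x) := by
      have := (PowerSeries.derivative ℚ).leibniz_pow x c
      rw [nsmul_eq_mul, smul_eq_mul] at this
      exact this
    rw [h3, h4, h5, h6, mul_zero, zero_add, mul_comm]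
  have h2 : eN N x * NR N (PowerSeries ℚ) = ∑ j ∈ Finset.range n,
      (((j.factorial : ℚ)⁻¹) • x ^ j) • NR N (PowerSeries ℚ) ^ (j + 1) := by
    unfold eN
    rw [Finset.sum_mul, ← hn]
    refine Finset.sum_congr rfl fun j _ => ?_
    rw [← NR_pow, Matrix.smul_mul, ← pow_succ]
  rw [h1, h2, Finset.smul_sum]
  rcases Nat.eq_zero_or_pos n with h0 | h0
  · rw [h0]
    rfl
  · obtain ⟨m, rfl⟩ : ∃ m, n = m + 1 := ⟨n - 1, by omega⟩
    rw [Finset.sum_range_succ', Finset.sum_range_succ, hNn]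
    have h3 : (((Nat.factorial 0 : ℚ)⁻¹) • (((0 : ℕ) : PowerSeries ℚ) *
        (x ^ (0 - 1) * dv x))) • NR N (PowerSeries ℚ) ^ 0 = 0 := by
      rw [Nat.cast_zero, zero_mul, smul_zero, zero_smul]
    rw [h3, smul_zero, smul_zero, add_zero, add_zero]
    refine Finset.sum_congr rfl fun j _ => ?_
    rw [smul_smul]
    congr 1
    rw [Nat.factorial_succ, Nat.add_sub_cancel]
    have h4 : ((j + 1 : ℕ) : PowerSeries ℚ) = algebraMap ℚ (PowerSeries ℚ) ((j + 1 : ℕ) : ℚ) := by
      rw [map_natCast]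
    rw [h4, ← Algebra.smul_def, smul_smul, mul_smul_comm, mul_comm (dv x)]
    congr 1
    have h5 : ((j + 1 : ℕ) : ℚ) ≠ 0 := by exact_mod_cast Nat.succ_ne_zero j
    have h6 : (j.factorial : ℚ) ≠ 0 := by positivity
    rw [Nat.cast_mul, mul_inv]
    field_simp

/-- a ring homomorphism commutes with the exponential -/
theorem map_eN {N : Matrix d d ℤ} {S : Type*} [CommRing S] [Algebra ℚ S] (f : R →+* S) (x : R) :
    (eN N x).map f = eN N (f x) := by
  unfold eN
  refine Matrix.ext fun a b => ?_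
  rw [Matrix.map_apply, Matrix.sum_apply, Matrix.sum_apply, map_sum]
  refine Finset.sum_congr rfl fun j _ => ?_
  rw [Matrix.smul_apply, Matrix.smul_apply, Matrix.map_apply, Matrix.map_apply, smul_eq_mul,
    smul_eq_mul, map_mul, map_intCast]
  congr 1
  rw [Algebra.smul_def, Algebra.smul_def, map_mul, map_pow]
  congr 1
  exact congrFun (congrArg DFunLike.coe (Subsingleton.elim (f.comp (algebraMap ℚ R))
    (algebraMap ℚ S))) _

end

end Pool.Agent.MT100.H27
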