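import Pool.Agent.MT100.Stmts

/-!
# MT100, module TRA, part 1: substitutions, logarithms, exponentials of the shift
-/

set_option autoImplicit false

namespace Pool.Agent.MT100.H27

open Matrix PowerSeries

noncomputable section

/-! ### The geometric series -/

/-- `1/(1 - κ z)` -/
def uu (κ : ℕ) : PowerSeries ℚ := PowerSeries.mk fun k => (κ : ℚ) ^ k

theorem mob_eq (κ : ℕ) : mob κ = X * uu κ := rfl

theorem uu_mul (κ : ℕ) : uu κ * (1 - C (κ : ℚ) * X) = 1 := by
  ext n
  have h : uu κ * (1 - C (κ : ℚ) * X) = uu κ - C (κ : ℚ) * (uu κ * X) := by ring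
  rw [h, map_sub, coeff_C_mul]
  cases n with
  | zero =>
    rw [coeff_zero_mul_X, mul_zero, sub_zero, uu, coeff_mk, coeff_zero_one, pow_zero]
  | succ n =>
    rw [coeff_succ_mul_X, uu, coeff_mk, coeff_mk, coeff_one, if_neg (Nat.succ_ne_zero n), pow_succ]
    ring

theorem dv_uu (κ : ℕ) : dv (uu κ) = C (κ : ℚ) * uu κ ^ 2 := by
  have h := congrArg dv (uu_mul κ)
  have h1 : dv (uu κ * (1 - C (κ : ℚ) * X)) =
      uu κ * dv (1 - C (κ : ℚ) * X) + (1 - C (κ : ℚ) * X) * dv (uu κ) := by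
    have := (PowerSeries.derivative ℚ).leibniz (uu κ) (1 - C (κ : ℚ) * X)
    simpa [smul_eq_mul] using this
  have h2 : dv (1 - C (κ : ℚ) * X) = - C (κ : ℚ) := by
    have h3 : dv (C (κ : ℚ) * X) = C (κ : ℚ) := by
      have := (PowerSeries.derivative ℚ).leibniz (C (κ : ℚ)) (X : PowerSeries ℚ)
      simpa [smul_eq_mul, PowerSeries.derivative_C, PowerSeries.derivative_X] using this
    have h4 : dv (1 : PowerSeries ℚ) = 0 := (PowerSeries.derivative ℚ).map_one_eq_zero
    have h5 : dv (1 - C (κ : ℚ) * X) = dv (1 : PowerSeries ℚ) - dv (C (κ : ℚ) * X) :=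
      map_sub (PowerSeries.derivative ℚ) _ _
    rw [h5, h4, h3, zero_sub]
  have h4 : dv (1 : PowerSeries ℚ) = 0 := (PowerSeries.derivative ℚ).map_one_eq_zero
  rw [h1, h2, h4] at h
  have hu := uu_mul κ
  have h6 : dv (uu κ) = dv (uu κ) * (uu κ * (1 - C (κ : ℚ) * X)) := by rw [hu, mul_one]
  rw [h6]
  linear_combination uu κ * h

theorem dv_mob (κ : ℕ) : dv (mob κ) = uu κ ^ 2 := by
  rw [mob_eq]
  have h1 : dv (X * uu κ) = X * dv (uu κ) + uu κ * dv X := by
    have := (PowerSeries.derivative ℚ).leibniz (X : PowerSeries ℚ) (uu κ)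
    simpa [smul_eq_mul] using this
  have h2 : dv (X : PowerSeries ℚ) = 1 := PowerSeries.derivative_X
  rw [h1, h2, dv_uu]
  have hu := uu_mul κ
  linear_combination (- uu κ) * hu

theorem dv_lgs (κ : ℕ) : dv (lgs κ) = C (κ : ℚ) * uu κ := by
  ext n
  rw [coeff_C_mul, uu, coeff_mk]
  have h : coeff n (dv (lgs κ)) = coeff (n + 1) (lgs κ) * (n + 1) :=
    PowerSeries.coeff_derivative _ _
  rw [h, lgs, coeff_mk]
  push_cast
  have h0 : ((n : ℚ) + 1) ≠ 0 := by positivity
  field_simp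
  ring

/-! ### The substitution -/

theorem hasSubst_mob (κ : ℕ) : HasSubst (mob κ) := by
  apply HasSubst.of_constantCoeff_zero'
  rw [mob_eq, map_mul, constantCoeff_X, zero_mul]

/-- the substitution `z ↦ z/(1 - κ z)` -/
def sb (κ : ℕ) : PowerSeries ℚ →+* PowerSeries ℚ :=
  ((substAlgHom (hasSubst_mob κ) : PowerSeries ℚ →ₐ[ℚ] PowerSeries ℚ) : PowerSeries ℚ →+* PowerSeries ℚ)

theorem sb_apply (κ : ℕ) (f : PowerSeries ℚ) : sb κ f = f.subst (mob κ) := by
  change substAlgHom (hasSubst_mob κ) f = _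
  rw [coe_substAlgHom]

theorem sb_X (κ : ℕ) : sb κ X = mob κ := by
  rw [sb_apply, subst_X (hasSubst_mob κ)]

theorem sb_C (κ : ℕ) (c : ℚ) : sb κ (C c) = C c := by
  have h : (C c : PowerSeries ℚ) = algebraMap ℚ (PowerSeries ℚ) c := rfl
  rw [h]
  exact (substAlgHom (hasSubst_mob κ)).commutes c

theorem dv_sb (κ : ℕ) (f : PowerSeries ℚ) : dv (sb κ f) = sb κ (dv f) * uu κ ^ 2 := by
  rw [sb_apply, sb_apply, ← dv_mob]
  exact PowerSeries.derivative_subst (hasSubst_mob κ)

/-! ### Substitution and G-type -/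

theorem uu_pow_int (κ d n : ℕ) : ∃ c : ℕ, coeff n (uu κ ^ d) = c ∧ c ≤ 2 ^ (n + d) * κ ^ n := by
  induction d generalizing n with
  | zero =>
    rw [pow_zero, coeff_one]
    by_cases h : n = 0
    · refine ⟨1, by rw [if_pos h, Nat.cast_one], ?_⟩
      rw [h]
      simp
    · exact ⟨0, by rw [if_neg h, Nat.cast_zero], Nat.zero_le _⟩
  | succ d ih =>
    choose c hc1 hc2 using ih
    refine ⟨∑ i ∈ Finset.range (n + 1), c i * κ ^ (n - i), ?_, ?_⟩
    · rw [pow_succ, PowerSeries.coeff_mul, Finset.Nat.sum_antidiagonal_eq_sum_range_succ_mk]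
      push_cast
      refine Finset.sum_congr rfl fun i _ => ?_
      rw [hc1, uu, coeff_mk]
    · calc ∑ i ∈ Finset.range (n + 1), c i * κ ^ (n - i)
          ≤ ∑ i ∈ Finset.range (n + 1), (2 ^ (i + d) * κ ^ i) * κ ^ (n - i) :=
            Finset.sum_le_sum fun i _ => Nat.mul_le_mul_right _ (hc2 i)
        _ = ∑ i ∈ Finset.range (n + 1), 2 ^ i * (2 ^ d * κ ^ n) := by
            refine Finset.sum_congr rfl fun i hi => ?_
            have h1 : i + (n - i) = n := by
              have := Finset.mem_range.mp hi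
              omega
            rw [pow_add, mul_assoc, mul_assoc, ← pow_add, h1]
        _ = (∑ i ∈ Finset.range (n + 1), 2 ^ i) * (2 ^ d * κ ^ n) := by rw [Finset.sum_mul]
        _ ≤ 2 ^ (n + 1) * (2 ^ d * κ ^ n) := by
            apply Nat.mul_le_mul_right
            rw [Nat.geomSum_eq (le_refl 2)]
            simp only [Nat.add_one_sub_one, Nat.div_one]
            exact Nat.sub_le _ _
        _ = 2 ^ (n + (d + 1)) * κ ^ n := by ring

theorem coeff_sb (κ : ℕ) (f : PowerSeries ℚ) (e : ℕ) : coeff e (sb κ f) =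
    ∑ d ∈ Finset.range (e + 1), coeff d f * coeff (e - d) (uu κ ^ d) := by
  rw [sb_apply, coeff_subst' (hasSubst_mob κ)]
  rw [finsum_eq_sum_of_support_subset (s := Finset.range (e + 1))]
  · refine Finset.sum_congr rfl fun d hd => ?_
    rw [smul_eq_mul, mob_eq, mul_pow, PowerSeries.coeff_X_pow_mul', if_pos]
    have := Finset.mem_range.mp hd
    omega
  · intro d hd
    rw [Function.mem_support] at hd
    by_contra hcon
    apply hd
    rw [smul_eq_mul, mob_eq, mul_pow, PowerSeries.coeff_X_pow_mul', if_neg, mul_zero]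
    intro h
    exact hcon (by rw [Finset.coe_range]; exact Nat.lt_succ_of_le h)

theorem gtype_sb (κ : ℕ) {f : PowerSeries ℚ} (hf : GType f) : GType (sb κ f) := by
  obtain ⟨A, hA, hf⟩ := hf
  refine ⟨4 * A * (κ + 1), by positivity, fun k => ⟨?_, ?_⟩⟩
  · have hA1 : (1 : ℚ) ≤ A := by exact_mod_cast hA
    have h1 : ∀ d ∈ Finset.range (k + 1), |coeff d f * coeff (k - d) (uu κ ^ d)| ≤
        (A : ℚ) ^ (k + 1) * (2 ^ k * ((κ : ℚ) + 1) ^ k) := by
      intro d hd
      have hd' : d ≤ k := Nat.lt_succ_iff.mp (Finset.mem_range.mp hd)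
      obtain ⟨c, hc1, hc2⟩ := uu_pow_int κ d (k - d)
      rw [abs_mul, hc1, Nat.abs_cast]
      have h2 : |coeff d f| ≤ (A : ℚ) ^ (k + 1) :=
        (hf d).1.trans (pow_le_pow_right₀ hA1 (by omega))
      have h3 : (c : ℚ) ≤ 2 ^ k * ((κ : ℚ) + 1) ^ k := by
        have h4 : (c : ℚ) ≤ 2 ^ (k - d + d) * (κ : ℚ) ^ (k - d) := by exact_mod_cast hc2
        rw [Nat.sub_add_cancel hd'] at h4
        refine h4.trans (mul_le_mul_of_nonneg_left ?_ (by positivity))
        calc (κ : ℚ) ^ (k - d) ≤ ((κ : ℚ) + 1) ^ (k - d) :=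
              pow_le_pow_left₀ (by positivity) (by linarith) _
          _ ≤ ((κ : ℚ) + 1) ^ k := pow_le_pow_right₀ (by
              have : (0 : ℚ) ≤ κ := by positivity
              linarith) (Nat.sub_le _ _)
      exact mul_le_mul h2 h3 (by positivity) (by positivity)
    rw [coeff_sb]
    refine (Finset.abs_sum_le_sum_abs _ _).trans ((Finset.sum_le_sum h1).trans ?_)
    rw [Finset.sum_const, Finset.card_range, nsmul_eq_mul]
    have h5 : ((k + 1 : ℕ) : ℚ) ≤ 2 ^ (k + 1) := by exact_mod_cast (Nat.lt_two_pow_self).le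
    have hk : (0 : ℚ) ≤ (A : ℚ) ^ (k + 1) * (2 ^ k * ((κ : ℚ) + 1) ^ k) := by positivity
    have hκ : (1 : ℚ) ≤ (κ : ℚ) + 1 := by
      have : (0 : ℚ) ≤ κ := by positivity
      linarith
    calc ((k + 1 : ℕ) : ℚ) * ((A : ℚ) ^ (k + 1) * (2 ^ k * ((κ : ℚ) + 1) ^ k))
        ≤ 2 ^ (k + 1) * ((A : ℚ) ^ (k + 1) * (2 ^ k * ((κ : ℚ) + 1) ^ k)) :=
          mul_le_mul_of_nonneg_right h5 hk
      _ ≤ 2 ^ (k + 1) * ((A : ℚ) ^ (k + 1) * (2 ^ (k + 1) * ((κ : ℚ) + 1) ^ (k + 1))) := by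
          refine mul_le_mul_of_nonneg_left (mul_le_mul_of_nonneg_left ?_ (by positivity))
            (by positivity)
          exact mul_le_mul (pow_le_pow_right₀ (by norm_num) (by omega))
            (pow_le_pow_right₀ hκ (by omega)) (by positivity) (by positivity)
      _ = ((4 * A * (κ + 1) : ℕ) : ℚ) ^ (k + 1) := by
          push_cast
          rw [← mul_pow, ← mul_pow, ← mul_pow]
          congr 1
          ring
  · obtain ⟨Dn, hD1, hD2, hD3⟩ := (hf k).2
    refine ⟨Dn, hD1, hD2.trans (Nat.pow_le_pow_left ?_ _), ?_⟩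
    · have : A ≤ 4 * A := by omega
      calc A ≤ 4 * A := this
        _ ≤ 4 * A * (κ + 1) := Nat.le_mul_of_pos_right _ (by omega)
    · intro i hi
      have h1 : ∀ d ∈ Finset.range (i + 1), ∃ z : ℤ,
          (Dn : ℚ) * (coeff d f * coeff (i - d) (uu κ ^ d)) = z := by
        intro d hd
        have hd' : d ≤ k := by
          have := Finset.mem_range.mp hd
          omega
        obtain ⟨z, hz⟩ := hD3 d hd'
        obtain ⟨c, hc1, _⟩ := uu_pow_int κ d (i - d)
        refine ⟨z * c, ?_⟩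
        rw [hc1, ← mul_assoc, hz]
        push_cast
        rfl
      choose! g hg using h1
      refine ⟨∑ d ∈ Finset.range (i + 1), g d, ?_⟩
      rw [coeff_sb, Finset.mul_sum, Int.cast_sum]
      exact Finset.sum_congr rfl fun d hd => hg d hd

theorem gtype_lgs (κ : ℕ) : GType (lgs κ) := by
  obtain ⟨A, hA⟩ : ∃ A : ℕ, Real.exp (Real.log 4 + 4) ≤ A := exists_nat_ge _
  have hA1 : 1 ≤ A := by
    have h1 : (1 : ℝ) ≤ Real.exp (Real.log 4 + 4) := by
      rw [Real.one_le_exp_iff]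
      have := Real.log_nonneg (show (1 : ℝ) ≤ 4 by norm_num)
      linarith
    exact_mod_cast h1.trans hA
  refine ⟨A * (κ + 1), by positivity, fun k => ⟨?_, ?_⟩⟩
  · rw [lgs, coeff_mk]
    have hκ : (0 : ℚ) ≤ κ := by positivity
    rw [abs_of_nonneg (by positivity)]
    have h1 : (κ : ℚ) ^ k / k ≤ (κ : ℚ) ^ k := by
      by_cases hk : k = 0
      · rw [hk]
        simp
      · apply div_le_self (by positivity)
        exact_mod_cast Nat.one_le_iff_ne_zero.mpr hk
    have hA2 : (1 : ℚ) ≤ A := by exact_mod_cast hA1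
    calc (κ : ℚ) ^ k / k ≤ (κ : ℚ) ^ k := h1
      _ ≤ ((κ : ℚ) + 1) ^ k := pow_le_pow_left₀ hκ (by linarith) _
      _ ≤ ((κ : ℚ) + 1) ^ (k + 1) := pow_le_pow_right₀ (by linarith) (by omega)
      _ ≤ ((A * (κ + 1) : ℕ) : ℚ) ^ (k + 1) := by
          apply pow_le_pow_left₀ (by positivity)
          push_cast
          nlinarith
  · refine ⟨Nat.lcmUpto k, Nat.lcmUpto_pos k, ?_, ?_⟩
    · have h1 : (Nat.lcmUpto k : ℝ) ≤ (A : ℝ) ^ k := by
        have h2 : Real.log (Nat.lcmUpto k) ≤ (Real.log 4 + 4) * k := by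
          rw [← Chebyshev.psi_eq_log_lcmUpto]
          exact Chebyshev.psi_le_const_mul_self (Nat.cast_nonneg k)
        have h3 : (0 : ℝ) < Nat.lcmUpto k := by exact_mod_cast Nat.lcmUpto_pos k
        calc (Nat.lcmUpto k : ℝ) = Real.exp (Real.log (Nat.lcmUpto k)) :=
              (Real.exp_log h3).symm
          _ ≤ Real.exp ((Real.log 4 + 4) * k) := Real.exp_le_exp.mpr h2
          _ = Real.exp (Real.log 4 + 4) ^ k := by rw [mul_comm, Real.exp_nat_mul]
          _ ≤ (A : ℝ) ^ k := pow_le_pow_left₀ (Real.exp_pos _).le hA _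
      have h4 : Nat.lcmUpto k ≤ A ^ k := by exact_mod_cast h1
      calc Nat.lcmUpto k ≤ A ^ k := h4
        _ ≤ A ^ (k + 1) := Nat.pow_le_pow_right hA1 (by omega)
        _ ≤ (A * (κ + 1)) ^ (k + 1) :=
            Nat.pow_le_pow_left (Nat.le_mul_of_pos_right _ (by omega)) _
    · intro i hi
      rw [lgs, coeff_mk]
      by_cases h0 : i = 0
      · refine ⟨0, ?_⟩
        rw [h0]
        simp
      · have hdvd : i ∣ Nat.lcmUpto k :=
          Finset.dvd_lcm (f := id) (Finset.mem_Icc.mpr ⟨Nat.one_le_iff_ne_zero.mpr h0, hi⟩)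
        obtain ⟨c, hc⟩ := hdvd
        refine ⟨c * κ ^ i, ?_⟩
        rw [hc]
        have hi0 : (i : ℚ) ≠ 0 := by exact_mod_cast h0
        push_cast
        field_simp

end

end Pool.Agent.MT100.H27
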