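import Pool.Agent.Helper27_MT.Sub

/-!
# MT100, module TRA: the translated systems
-/

set_option autoImplicit false

namespace Pool.Agent.MT100.H27

open Matrix PowerSeries

noncomputable section

/-! ### Exponentials of the shift -/

section en

variable {r : ℕ} {R : Type*} [CommRing R] [Algebra ℚ R]

theorem en_zero : en r (0 : R) = 1 := by
  refine Matrix.ext fun l i => ?_
  unfold en
  by_cases h : l = i
  · rw [h, if_pos (le_refl _), Nat.sub_self, pow_zero, Nat.factorial_zero, Matrix.one_apply_eq]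
    simp
  · rw [Matrix.one_apply_ne h]
    by_cases h1 : l ≤ i
    · rw [if_pos h1, zero_pow, smul_zero]
      have h2 : l < i := lt_of_le_of_ne h1 h
      have h3 : (l : ℕ) < i := h2
      omega
    · rw [if_neg h1]

theorem en_mul (x y : R) : en r x * en r y = en r (x + y) := by
  refine Matrix.ext fun l i => ?_
  rw [Matrix.mul_apply]
  by_cases hli : l ≤ i
  · have hli' : (l : ℕ) ≤ i := hli
    have hr : en r (x + y) l i = ∑ k ∈ Finset.HasAntidiagonal.antidiagonal ((i : ℕ) - (l : ℕ)),
        ((k.1.factorial : ℚ)⁻¹ • x ^ k.1) * ((k.2.factorial : ℚ)⁻¹ • y ^ k.2) := by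
      unfold en
      rw [if_pos hli, (Commute.all x y).add_pow', Finset.smul_sum]
      refine Finset.sum_congr rfl fun k hk => ?_
      have hk' : k.1 + k.2 = (i : ℕ) - l := Finset.HasAntidiagonal.mem_antidiagonal.mp hk
      rw [smul_mul_smul_comm, ← hk', ← Nat.cast_smul_eq_nsmul ℚ, smul_smul]
      congr 1
      have h1 : ((k.1 + k.2).choose k.1 * k.1.factorial * k.2.factorial : ℕ) =
          (k.1 + k.2).factorial := by
        rw [Nat.choose_symm_add]
        exact Nat.add_choose_mul_factorial_mul_factorial _ _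
      have h2 : (((k.1 + k.2).choose k.1 : ℚ) * k.1.factorial * k.2.factorial) =
          (k.1 + k.2).factorial := by exact_mod_cast h1
      have h3 : (k.1.factorial : ℚ) ≠ 0 := by positivity
      have h4 : (k.2.factorial : ℚ) ≠ 0 := by positivity
      have h5 : ((k.1 + k.2).factorial : ℚ) ≠ 0 := by positivity
      field_simp
      linarith
    rw [hr]
    symm
    refine Finset.sum_of_injOn (fun k => (⟨min (l + k.1) i, by
      have := i.2
      omega⟩ : Fin r)) ?_ ?_ ?_ ?_
    · intro k hk k' hk' h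
      have h1 : k.1 + k.2 = (i : ℕ) - l := Finset.HasAntidiagonal.mem_antidiagonal.mp hk
      have h2 : k'.1 + k'.2 = (i : ℕ) - l := Finset.HasAntidiagonal.mem_antidiagonal.mp hk'
      have h3 := Fin.mk.inj h
      ext <;> omega
    · intro k hk
      exact Finset.mem_coe.mpr (Finset.mem_univ _)
    · intro m _ hm
      unfold en
      by_cases h1 : l ≤ m
      · by_cases h2 : m ≤ i
        · exfalso
          apply hm
          have h1' : (l : ℕ) ≤ m := h1
          have h2' : (m : ℕ) ≤ i := h2
          refine ⟨((m : ℕ) - l, (i : ℕ) - m), ?_, ?_⟩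
          · rw [Finset.mem_coe, Finset.HasAntidiagonal.mem_antidiagonal]
            simp only
            omega
          · apply Fin.ext
            simp only
            omega
        · rw [if_neg h2, mul_zero]
      · rw [if_neg h1, zero_mul]
    · intro k hk
      have h1 : k.1 + k.2 = (i : ℕ) - l := Finset.HasAntidiagonal.mem_antidiagonal.mp hk
      have h2 : min ((l : ℕ) + k.1) i = l + k.1 := by omega
      unfold en
      rw [if_pos, if_pos]
      · simp only [h2]
        have h3 : (l : ℕ) + k.1 - l = k.1 := by omega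
        have h4 : (i : ℕ) - (l + k.1) = k.2 := by omega
        rw [h3, h4]
      · change min ((l : ℕ) + k.1) i ≤ i
        omega
      · change (l : ℕ) ≤ min ((l : ℕ) + k.1) i
        omega
  · have h0 : en r (x + y) l i = 0 := by
      unfold en
      rw [if_neg hli]
    rw [h0]
    refine Finset.sum_eq_zero fun m _ => ?_
    unfold en
    by_cases h1 : l ≤ m
    · rw [if_neg (fun h2 => hli (h1.trans h2)), mul_zero]
    · rw [if_neg h1, zero_mul]

theorem en_mul_neg (x : R) : en r x * en r (-x) = 1 := by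
  rw [en_mul, add_neg_cancel, en_zero]

end en

/-! ### The shift -/

/-- The shift over the power series. -/
def Ns (r : ℕ) : Matrix (Fin r) (Fin r) (PowerSeries ℚ) :=
  (Nsh r).map (fun x => (x : PowerSeries ℚ))

theorem Ns_apply (r : ℕ) (l i : Fin r) :
    Ns r l i = if (l : ℕ) + 1 = i then 1 else 0 := by
  unfold Ns Nsh
  rw [Matrix.map_apply]
  by_cases h : (l : ℕ) + 1 = i
  · rw [if_pos h, if_pos h, Int.cast_one]
  · rw [if_neg h, if_neg h, Int.cast_zero]

/-- The next entry of the exponential. -/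
theorem en_mul_Ns {r : ℕ} (x : PowerSeries ℚ) (l i : Fin r) : (en r x * Ns r) l i =
    if (l : ℕ) < i then ((((i : ℕ) - l - 1).factorial : ℚ)⁻¹) • x ^ ((i : ℕ) - l - 1) else 0 := by
  rw [Matrix.mul_apply]
  by_cases h : (l : ℕ) < i
  · have hi := i.2
    rw [Finset.sum_eq_single ⟨(i : ℕ) - 1, by omega⟩]
    · rw [Ns_apply, if_pos (by simp only; omega), mul_one, if_pos h]
      unfold en
      rw [if_pos (by change (l : ℕ) ≤ (i : ℕ) - 1; omega)]
      have : (i : ℕ) - 1 - l = (i : ℕ) - l - 1 := by omega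
      simp only [this]
    · intro m _ hm
      rw [Ns_apply, if_neg, mul_zero]
      intro h1
      apply hm
      apply Fin.ext
      simp only
      omega
    · intro h1
      exact absurd (Finset.mem_univ _) h1
  · rw [if_neg h]
    refine Finset.sum_eq_zero fun m _ => ?_
    rw [Ns_apply]
    by_cases h1 : (m : ℕ) + 1 = i
    · unfold en
      rw [if_neg, zero_mul]
      intro h2
      have : (l : ℕ) ≤ m := h2
      omega
    · rw [if_neg h1, mul_zero]

theorem Ns_mul_en {r : ℕ} (x : PowerSeries ℚ) (l i : Fin r) : (Ns r * en r x) l i =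
    if (l : ℕ) < i then ((((i : ℕ) - l - 1).factorial : ℚ)⁻¹) • x ^ ((i : ℕ) - l - 1) else 0 := by
  rw [Matrix.mul_apply]
  by_cases h : (l : ℕ) < i
  · have hi := i.2
    rw [Finset.sum_eq_single ⟨(l : ℕ) + 1, by omega⟩]
    · rw [Ns_apply, if_pos rfl, one_mul, if_pos h]
      unfold en
      rw [if_pos (by change (l : ℕ) + 1 ≤ (i : ℕ); omega)]
      have : (i : ℕ) - (l + 1) = (i : ℕ) - l - 1 := by omega
      simp only [this]
    · intro m _ hm
      rw [Ns_apply, if_neg, zero_mul]
      intro h1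
      apply hm
      apply Fin.ext
      simp only
      omega
    · intro h1
      exact absurd (Finset.mem_univ _) h1
  · rw [if_neg h]
    refine Finset.sum_eq_zero fun m _ => ?_
    rw [Ns_apply]
    by_cases h1 : (l : ℕ) + 1 = m
    · have h3 : en r x m i = 0 := by
        unfold en
        rw [if_neg]
        intro h2
        have : (m : ℕ) ≤ i := h2
        omega
      rw [h3, mul_zero]
    · rw [if_neg h1, zero_mul]

theorem en_comm {r : ℕ} (x : PowerSeries ℚ) : en r x * Ns r = Ns r * en r x := by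
  refine Matrix.ext fun l i => ?_
  rw [en_mul_Ns, Ns_mul_en]

theorem dv_en {r : ℕ} (x : PowerSeries ℚ) : (en r x).map dv = dv x • (en r x * Ns r) := by
  refine Matrix.ext fun l i => ?_
  rw [Matrix.map_apply, Matrix.smul_apply, en_mul_Ns, smul_eq_mul]
  unfold en
  by_cases h : l ≤ i
  · rw [if_pos h]
    have h' : (l : ℕ) ≤ i := h
    have h1 : dv ((((((i : ℕ) - (l : ℕ)).factorial : ℚ)⁻¹) • x ^ ((i : ℕ) - (l : ℕ)))) =
        ((((i : ℕ) - (l : ℕ)).factorial : ℚ)⁻¹) • dv (x ^ ((i : ℕ) - (l : ℕ))) :=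
      (PowerSeries.derivative ℚ).map_smul _ _
    have h2 : dv (x ^ ((i : ℕ) - (l : ℕ))) =
        (((i : ℕ) - (l : ℕ) : ℕ) : PowerSeries ℚ) * (x ^ ((i : ℕ) - (l : ℕ) - 1) * dv x) := by
      have := (PowerSeries.derivative ℚ).leibniz_pow x ((i : ℕ) - (l : ℕ))
      rw [nsmul_eq_mul, smul_eq_mul] at this
      exact this
    rw [h1, h2]
    by_cases h3 : (l : ℕ) < i
    · rw [if_pos h3]
      obtain ⟨k, hk⟩ : ∃ k, (i : ℕ) - l = k + 1 := ⟨(i : ℕ) - l - 1, by omega⟩
      have hk' : (i : ℕ) - l - 1 = k := by omega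
      rw [hk', hk, Nat.factorial_succ]
      have h4 : ((k + 1 : ℕ) : PowerSeries ℚ) = algebraMap ℚ (PowerSeries ℚ) ((k + 1 : ℕ) : ℚ) := by
        rw [map_natCast]
      rw [h4, ← Algebra.smul_def, smul_smul, mul_smul_comm, mul_comm (dv x)]
      congr 1
      have h5 : ((k + 1 : ℕ) : ℚ) ≠ 0 := by exact_mod_cast Nat.succ_ne_zero k
      have h6 : (k.factorial : ℚ) ≠ 0 := by positivity
      rw [Nat.cast_mul, mul_inv]
      field_simp
    · rw [if_neg h3, mul_zero]
      have h4 : (i : ℕ) - l = 0 := by omega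
      rw [h4, Nat.cast_zero, zero_mul, smul_zero]
  · rw [if_neg h, if_neg (by
      intro h1
      exact h (Fin.le_def.mpr h1.le)), mul_zero]
    exact map_zero (PowerSeries.derivative ℚ)

/-! ### Derivative of a product of matrices -/

theorem dv_mul {d : Type*} [Fintype d] (A B : Matrix d d (PowerSeries ℚ)) :
    (A * B).map dv = A.map dv * B + A * B.map dv := by
  refine Matrix.ext fun l i => ?_
  rw [Matrix.map_apply, Matrix.add_apply, Matrix.mul_apply, Matrix.mul_apply, Matrix.mul_apply]
  have h1 : dv (∑ j, A l j * B j i) = ∑ j, dv (A l j * B j i) :=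
    map_sum (PowerSeries.derivative ℚ) _ _
  rw [h1, ← Finset.sum_add_distrib]
  refine Finset.sum_congr rfl fun j _ => ?_
  have h2 := (PowerSeries.derivative ℚ).leibniz (A l j) (B j i)
  rw [smul_eq_mul, smul_eq_mul] at h2
  change PowerSeries.derivative ℚ (A l j * B j i) = PowerSeries.derivative ℚ (A l j) * B j i +
    A l j * PowerSeries.derivative ℚ (B j i)
  rw [h2]
  ring

/-! ### Systems with rational coefficients -/

theorem denom {ι : Type*} [Fintype ι] (p : ι → Polynomial ℚ) : ∃ c : ℤ, c ≠ 0 ∧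
    ∀ i, ∃ z : Polynomial ℤ, zq z = Polynomial.C (c : ℚ) * p i := by
  classical
  have h : ∀ i, ∃ (b : ℤ) (z : Polynomial ℤ), b ≠ 0 ∧ zq z = Polynomial.C (b : ℚ) * p i := by
    intro i
    obtain ⟨b, hb0, hb⟩ := IsLocalization.integerNormalization_spec (nonZeroDivisors ℤ) (p i)
    refine ⟨b, IsLocalization.integerNormalization (nonZeroDivisors ℤ) (p i),
      nonZeroDivisors.ne_zero hb0, ?_⟩
    have h1 : zq (IsLocalization.integerNormalization (nonZeroDivisors ℤ) (p i)) = b • p i := hb
    rw [h1, zsmul_eq_mul]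
    congr 1
  choose b z hb hz using h
  refine ⟨∏ i, b i, Finset.prod_ne_zero_iff.mpr fun i _ => hb i, fun i => ?_⟩
  refine ⟨Polynomial.C (∏ j ∈ Finset.univ.erase i, b j) * z i, ?_⟩
  have h1 : (∏ j, b j) = b i * ∏ j ∈ Finset.univ.erase i, b j :=
    (Finset.mul_prod_erase _ _ (Finset.mem_univ i)).symm
  have h2 : zq (Polynomial.C (∏ j ∈ Finset.univ.erase i, b j) * z i) =
      zq (Polynomial.C (∏ j ∈ Finset.univ.erase i, b j)) * zq (z i) := by
    unfold zq
    rw [Polynomial.map_mul]
  rw [h2, hz, h1]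
  unfold zq
  rw [Polynomial.map_C, Int.cast_mul, Polynomial.C_mul]
  change Polynomial.C (((∏ j ∈ Finset.univ.erase i, b j : ℤ)) : ℚ) * _ = _
  ring

theorem isG_of_rat {d : Type*} [Fintype d] [DecidableEq d] {H K : Matrix d d (PowerSeries ℚ)}
    {N : Matrix d d ℤ} {q : Polynomial ℚ} {B : Matrix d d (Polynomial ℚ)} (inv : H * K = 1)
    (one : ∀ i j, PowerSeries.constantCoeff (H i j) = if i = j then 1 else 0)
    (nil : IsNilpotent N) (q0 : q ≠ 0)
    (ode : ((q : PowerSeries ℚ) * PowerSeries.X) • H.map dv =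
      B.map (fun p => (p : PowerSeries ℚ)) * H -
        (q : PowerSeries ℚ) • (H * N.map (fun x => (x : PowerSeries ℚ))))
    (gH : ∀ i j, GType (H i j)) (gK : ∀ i j, GType (K i j)) : IsG H := by
  obtain ⟨c, hc, hz⟩ := denom (fun o : Option (d × d) => o.elim q fun p => B p.1 p.2)
  obtain ⟨q', hq'⟩ := hz none
  choose B' hB' using fun i j => hz (some (i, j))
  have hcQ : ((c : ℤ) : ℚ) ≠ 0 := by exact_mod_cast hc
  have e1 : zp q' = C (c : ℚ) * (q : PowerSeries ℚ) := by
    unfold zp
    rw [hq']
    change ((Polynomial.C (c : ℚ) * q : Polynomial ℚ) : PowerSeries ℚ) = _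
    rw [Polynomial.coe_mul, Polynomial.coe_C]
  have e2 : (Matrix.of B').map zp = C (c : ℚ) • B.map (fun p => (p : PowerSeries ℚ)) := by
    refine Matrix.ext fun i j => ?_
    rw [Matrix.map_apply, Matrix.of_apply, Matrix.smul_apply, Matrix.map_apply, smul_eq_mul]
    unfold zp
    rw [hB']
    change ((Polynomial.C (c : ℚ) * B i j : Polynomial ℚ) : PowerSeries ℚ) = _
    rw [Polynomial.coe_mul, Polynomial.coe_C]
  refine ⟨K, N, q', Matrix.of B', inv, one, nil, ?_, ?_, gH, gK⟩
  · intro h0
    rw [h0] at hq'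
    have h1 : zq (0 : Polynomial ℤ) = 0 := by
      unfold zq
      exact Polynomial.map_zero _
    rw [h1] at hq'
    exact mul_ne_zero (Polynomial.C_ne_zero.mpr hcQ) q0 hq'.symm
  · rw [e1, e2, mul_assoc, mul_smul, ode, smul_sub, Matrix.smul_mul, mul_smul]

/-! ### The pairing and the shift -/

theorem J0_sq (s : ℕ) : J0 (2 * s) * J0 (2 * s) = -1 := by
  refine Matrix.ext fun a c => ?_
  rw [Matrix.mul_apply, Matrix.neg_apply]
  have ha := a.2
  rw [Finset.sum_eq_single ⟨2 * s - 1 - a, by omega⟩]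
  · unfold J0
    rw [if_pos (by simp only; omega)]
    by_cases h : a = c
    · subst h
      rw [Matrix.one_apply_eq, if_pos (by simp only; omega), ← pow_add]
      have h1 : (a : ℕ) + (2 * s - 1 - a) = 2 * (s - 1) + 1 := by omega
      simp only [h1]
      rw [pow_succ, pow_mul]
      norm_num
    · rw [Matrix.one_apply_ne h, if_neg, mul_zero, neg_zero]
      intro h1
      apply h
      apply Fin.ext
      simp only at h1
      omega
  · intro b _ hb
    unfold J0
    rw [if_neg, zero_mul]
    intro h1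
    apply hb
    apply Fin.ext
    simp only
    omega
  · intro h
    exact absurd (Finset.mem_univ _) h

theorem Nsh_pow (r k : ℕ) (l i : Fin r) : (Nsh r ^ k) l i = if (l : ℕ) + k = i then 1 else 0 := by
  induction k generalizing l i with
  | zero =>
    rw [pow_zero, add_zero]
    by_cases h : l = i
    · rw [h, Matrix.one_apply_eq, if_pos rfl]
    · rw [Matrix.one_apply_ne h, if_neg fun h1 => h (Fin.ext h1)]
  | succ k ih =>
    rw [pow_succ', Matrix.mul_apply]
    by_cases h : (l : ℕ) + (k + 1) = i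
    · have hi := i.2
      rw [if_pos h, Finset.sum_eq_single ⟨(l : ℕ) + 1, by omega⟩]
      · rw [ih]
        unfold Nsh
        rw [if_pos rfl, if_pos (by simp only; omega), one_mul]
      · intro m _ hm
        unfold Nsh
        rw [if_neg, zero_mul]
        intro h1
        exact hm (Fin.ext h1.symm)
      · intro h1
        exact absurd (Finset.mem_univ _) h1
    · rw [if_neg h]
      refine Finset.sum_eq_zero fun m _ => ?_
      rw [ih]
      by_cases h1 : (l : ℕ) + 1 = m
      · rw [if_neg (by omega), mul_zero]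
      · unfold Nsh
        rw [if_neg h1, zero_mul]

theorem Nsh_nil (r : ℕ) : IsNilpotent (Nsh r) := by
  refine ⟨r, Matrix.ext fun l i => ?_⟩
  rw [Nsh_pow, if_neg (by
    have := i.2
    omega), Matrix.zero_apply]

/-! ### The main statement -/

/-- TRA -/
theorem tra (gcl : GclStmt) (hyp : HypStmt) (hgt : HgtStmt) (pai : PaiStmt) : TraStmt := by
  intro D κ
  obtain ⟨g1, g2, g3, g4, g5, g6⟩ := gcl
  obtain ⟨y1, y2⟩ := hyp D
  obtain ⟨p1, p2⟩ := pai D
  have hg0 : GType 0 := by
    have := g1 0
    rwa [Polynomial.coe_zero] at this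
  have hgc : ∀ (c : ℚ) (f : PowerSeries ℚ), GType f → GType (c • f) := by
    intro c f hf
    have h1 := g4 _ _ (g1 (Polynomial.C c)) hf
    rwa [Polynomial.coe_C, ← PowerSeries.smul_eq_C_mul] at h1
  have hgneg : ∀ f : PowerSeries ℚ, GType f → GType (-f) := by
    intro f hf
    have := g3 _ _ hg0 hf
    rwa [zero_sub] at this
  have hgm : ∀ A B : Matrix (Fin D.r) (Fin D.r) (PowerSeries ℚ), (∀ i j, GType (A i j)) →
      (∀ i j, GType (B i j)) → ∀ i j, GType ((A * B) i j) := by
    intro A B hA hB i j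
    rw [Matrix.mul_apply]
    exact g5 _ _ _ fun k _ => g4 _ _ (hA i k) (hB k j)
  have hgen : ∀ x : PowerSeries ℚ, GType x → ∀ i j, GType (en D.r x i j) := by
    intro x hx i j
    unfold en
    split_ifs
    · apply hgc
      have h1 := g6 ℕ (Finset.range ((j : ℕ) - (i : ℕ))) (fun _ => x) fun _ _ => hx
      rwa [Finset.prod_const, Finset.card_range] at h1
    · exact hg0
  -- the inverse of the fundamental matrix
  obtain ⟨Jc, hJc⟩ : ∃ Jc : Matrix (Fin D.r) (Fin D.r) (PowerSeries ℚ),
      Jc = (J0 D.r).map (fun x => PowerSeries.C x) := ⟨_, rfl⟩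
  rw [← hJc] at p2
  have hJ2 : Jc * Jc = -1 := by
    have h1 : Jc * Jc = (J0 D.r * J0 D.r).map (fun x => PowerSeries.C x) := by
      rw [hJc]
      exact (Matrix.map_mul (f := (PowerSeries.C : ℚ →+* PowerSeries ℚ))).symm
    rw [h1, J0_sq]
    refine Matrix.ext fun a c => ?_
    rw [Matrix.map_apply, Matrix.neg_apply, Matrix.neg_apply, map_neg]
    congr 1
    by_cases h : a = c
    · rw [h, Matrix.one_apply_eq, Matrix.one_apply_eq, map_one]
    · rw [Matrix.one_apply_ne h, Matrix.one_apply_ne h, map_zero]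
  obtain ⟨K0, hK0⟩ : ∃ K0 : Matrix (Fin D.r) (Fin D.r) (PowerSeries ℚ),
      K0 = -(Jc * ((Hyp D)ᵀ * (Jm D).map (fun p => (p : PowerSeries ℚ)))) := ⟨_, rfl⟩
  have hinv0 : Hyp D * K0 = 1 := by
    rw [mul_eq_one_comm, hK0, Matrix.neg_mul, Matrix.mul_assoc, p2, hJ2, neg_neg]
  -- the matrices
  have hTr : Tr D κ = (Hyp D).map (sb κ) * en D.r (lgs κ) := by
    unfold Tr
    congr 1
    refine Matrix.ext fun i j => ?_
    rw [Matrix.map_apply, Matrix.map_apply, sb_apply]
  rw [hTr]
  have hgH : ∀ i j, GType (((Hyp D).map (sb κ)) i j) := fun i j => by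
    rw [Matrix.map_apply]
    exact gtype_sb κ (hgt D i j)
  refine isG_of_rat (K := en D.r (-lgs κ) * K0.map (sb κ)) (N := Nsh D.r)
    (q := (1 - Polynomial.C (κ : ℚ) * Polynomial.X) *
      (1 - Polynomial.C ((κ : ℚ) + D.lam) * Polynomial.X))
    (B := fun a b => (if (a : ℕ) + 1 = b then
        1 - Polynomial.C ((κ : ℚ) + D.lam) * Polynomial.X else 0) +
      (if (a : ℕ) + 1 = D.r then Polynomial.C (D.lam * (cf D).coeff b) * Polynomial.X else 0))
    ?_ ?_ (Nsh_nil _) ?_ ?_ ?_ ?_
  · have h1 : (Hyp D).map (sb κ) * K0.map (sb κ) = 1 := by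
      have h2 : (Hyp D).map (sb κ) * K0.map (sb κ) = (Hyp D * K0).map (sb κ) :=
        (Matrix.map_mul (f := sb κ)).symm
      rw [h2, hinv0]
      exact Matrix.map_one _ (map_zero _) (map_one _)
    calc (Hyp D).map (sb κ) * en D.r (lgs κ) * (en D.r (-lgs κ) * K0.map (sb κ))
        = (Hyp D).map (sb κ) * (en D.r (lgs κ) * en D.r (-lgs κ)) * K0.map (sb κ) := by
          simp only [Matrix.mul_assoc]
      _ = 1 := by rw [en_mul_neg, Matrix.mul_one, h1]
  · have h1 : ∀ i j, PowerSeries.constantCoeff (((Hyp D).map (sb κ)) i j) =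
        if i = j then 1 else 0 := by
      intro i j
      rw [← y1 i j, Matrix.map_apply, ← PowerSeries.coeff_zero_eq_constantCoeff_apply,
        ← PowerSeries.coeff_zero_eq_constantCoeff_apply, coeff_sb]
      simp
    have h2 : ∀ i j, PowerSeries.constantCoeff (en D.r (lgs κ) i j) =
        if i = j then 1 else 0 := by
      intro i j
      have h0 : PowerSeries.constantCoeff (lgs κ) = 0 := by
        rw [← PowerSeries.coeff_zero_eq_constantCoeff_apply, lgs, coeff_mk]
        simp
      have h3 : PowerSeries.constantCoeff (en D.r (lgs κ) i j) = en D.r (0 : ℚ) i j := by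
        unfold en
        split_ifs
        · rw [PowerSeries.smul_eq_C_mul, map_mul, map_pow, h0, PowerSeries.constantCoeff_C,
            smul_eq_mul]
        · exact map_zero _
      rw [h3, en_zero, Matrix.one_apply]
    intro i j
    rw [Matrix.mul_apply, map_sum]
    simp only [map_mul, h1, h2]
    simp
  · intro h0
    have h1 := congrArg (Polynomial.eval 0) h0
    simp at h1
  · -- the differential equation
    obtain ⟨Hs, hHs⟩ : ∃ Hs, Hs = (Hyp D).map (sb κ) := ⟨_, rfl⟩
    obtain ⟨D1, hD1⟩ : ∃ D1, D1 = ((Hyp D).map dv).map (sb κ) := ⟨_, rfl⟩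
    obtain ⟨A1, hA1⟩ : ∃ A1, A1 = ((A0 D).map (fun p => (p : PowerSeries ℚ))).map (sb κ) :=
      ⟨_, rfl⟩
    obtain ⟨E, hE⟩ : ∃ E, E = en D.r (lgs κ) := ⟨_, rfl⟩
    obtain ⟨v, hv⟩ : ∃ v : PowerSeries ℚ, v = 1 - C (κ : ℚ) * X := ⟨_, rfl⟩
    obtain ⟨w, hw⟩ : ∃ w : PowerSeries ℚ, w = 1 - C ((κ : ℚ) + D.lam) * X := ⟨_, rfl⟩
    have huv : uu κ * v = 1 := by rw [hv, uu_mul]
    have e1 : (Hs).map dv = uu κ ^ 2 • D1 := by
      rw [hHs, hD1]
      refine Matrix.ext fun i j => ?_
      rw [Matrix.map_apply, Matrix.map_apply, Matrix.smul_apply, Matrix.map_apply,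
        Matrix.map_apply, dv_sb, smul_eq_mul, mul_comm]
    have hNs : (Ns D.r).map (sb κ) = Ns D.r := by
      refine Matrix.ext fun i j => ?_
      rw [Matrix.map_apply, Ns_apply]
      split_ifs
      · exact map_one _
      · exact map_zero _
    have e2 : (sb κ ((1 - Polynomial.C D.lam * Polynomial.X : Polynomial ℚ) : PowerSeries ℚ) *
        sb κ X) • D1 = A1 * Hs -
        sb κ ((1 - Polynomial.C D.lam * Polynomial.X : Polynomial ℚ) : PowerSeries ℚ) •
          (Hs * Ns D.r) := by
      have h := congrArg (fun M => M.map (sb κ)) y2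
      have hs : ∀ (c : PowerSeries ℚ) (M : Matrix (Fin D.r) (Fin D.r) (PowerSeries ℚ)),
          (c • M).map (sb κ) = sb κ c • M.map (sb κ) := by
        intro c M
        refine Matrix.ext fun i j => ?_
        rw [Matrix.map_apply, Matrix.smul_apply, Matrix.smul_apply, Matrix.map_apply, smul_eq_mul,
          smul_eq_mul, map_mul]
      simp only [hs, Matrix.map_sub _ (map_sub (sb κ)), Matrix.map_mul] at h
      rw [map_mul] at h
      rw [hHs, hD1, hA1]
      have hN : (Nsh D.r).map (fun x => (x : PowerSeries ℚ)) = Ns D.r := rfl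
      rw [hN, hNs] at h
      exact h
    have hq0 : sb κ ((1 - Polynomial.C D.lam * Polynomial.X : Polynomial ℚ) : PowerSeries ℚ) =
        1 - C D.lam * mob κ := by
      rw [Polynomial.coe_sub, Polynomial.coe_one, Polynomial.coe_mul, Polynomial.coe_C,
        Polynomial.coe_X, map_sub, map_one, map_mul, sb_C, sb_X]
    have hvm : v * mob κ = X := by
      rw [mob_eq]
      linear_combination X * huv
    have hvw : v * (1 - C D.lam * mob κ) = w := by
      rw [hw, map_add]
      rw [hv] at hvm ⊢
      linear_combination (- C D.lam) * hvm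
    rw [hq0, sb_X] at e2
    obtain ⟨Bp, hBp⟩ : ∃ Bp : Matrix (Fin D.r) (Fin D.r) (Polynomial ℚ),
        Bp = fun (a b : Fin D.r) => (if (a : ℕ) + 1 = b then
        1 - Polynomial.C ((κ : ℚ) + D.lam) * Polynomial.X else 0) +
      (if (a : ℕ) + 1 = D.r then Polynomial.C (D.lam * (cf D).coeff b) * Polynomial.X
        else 0) := ⟨_, rfl⟩
    have e3 : v • A1 = Bp.map (fun p => (p : PowerSeries ℚ)) := by
      refine Matrix.ext fun a b => ?_
      rw [hA1, Matrix.smul_apply, Matrix.map_apply, Matrix.map_apply, Matrix.map_apply,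
        hBp, smul_eq_mul]
      unfold A0
      rw [Polynomial.coe_add, map_add, mul_add, Polynomial.coe_add]
      congr 1
      · split_ifs
        · rw [hq0, hvw, hw, Polynomial.coe_sub, Polynomial.coe_one, Polynomial.coe_mul,
            Polynomial.coe_C, Polynomial.coe_X]
        · rw [Polynomial.coe_zero, map_zero, mul_zero]
      · split_ifs
        · rw [Polynomial.coe_mul, Polynomial.coe_C, Polynomial.coe_X, map_mul, sb_C, sb_X]
          linear_combination (C (D.lam * (cf D).coeff b)) * hvm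
        · rw [Polynomial.coe_zero, map_zero, mul_zero]
    have hQ : (((1 - Polynomial.C (κ : ℚ) * Polynomial.X) *
        (1 - Polynomial.C ((κ : ℚ) + D.lam) * Polynomial.X) : Polynomial ℚ) : PowerSeries ℚ) =
        v * w := by
      rw [hv, hw]
      simp only [Polynomial.coe_sub, Polynomial.coe_one, Polynomial.coe_mul, Polynomial.coe_C,
        Polynomial.coe_X]
    have hgoal : ((v * w) * X) • (Hs * E).map dv = (v • A1) * (Hs * E) -
        (v * w) • (Hs * E * Ns D.r) := by
      rw [dv_mul, e1, hE, dv_en, dv_lgs]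
      rw [hE] at *
      have hz : Hs * Ns D.r * en D.r (lgs κ) = Hs * en D.r (lgs κ) * Ns D.r := by
        rw [Matrix.mul_assoc, Matrix.mul_assoc, en_comm]
      have h1 : ((v * w) * X) • (uu κ ^ 2 • D1 * en D.r (lgs κ)) =
          v • ((((1 - C D.lam * mob κ) * mob κ) • D1) * en D.r (lgs κ)) := by
        rw [Matrix.smul_mul, Matrix.smul_mul, smul_smul, smul_smul]
        congr 1
        rw [← hvw, mob_eq]
        linear_combination ((1 - C D.lam * (X * uu κ)) * (X * uu κ) * v) * huv
      rw [smul_add, h1, e2, Matrix.sub_mul, Matrix.smul_mul, hz, Matrix.mul_smul, smul_smul,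
        smul_sub, smul_smul, hvw, Matrix.smul_mul, ← Matrix.mul_assoc, ← Matrix.mul_assoc]
      have h2 : v * w * X * (C (κ : ℚ) * uu κ) = w - v * w := by
        rw [hv] at huv ⊢
        linear_combination (w * C (κ : ℚ) * X) * huv
      rw [h2, sub_smul]
      abel
    rw [hQ]
    rw [e3, hBp] at hgoal
    rw [hHs, hE] at hgoal
    exact hgoal
  · exact hgm _ _ hgH (hgen _ (gtype_lgs κ))
  · apply hgm _ _ (hgen _ (hgneg _ (gtype_lgs κ)))
    intro i j
    rw [Matrix.map_apply]
    apply gtype_sb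
    rw [hK0, Matrix.neg_apply]
    apply hgneg
    apply hgm
    · intro i j
      rw [hJc, Matrix.map_apply]
      have := g1 (Polynomial.C (J0 D.r i j))
      rwa [Polynomial.coe_C] at this
    · apply hgm
      · intro i j
        rw [Matrix.transpose_apply]
        exact hgt D j i
      · intro i j
        rw [Matrix.map_apply]
        exact g1 _

end

end Pool.Agent.MT100.H27
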